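import Pool.Agent.SOI.St

/-! Project SOI (MP_66ba69_lc), module Cls: the types of the marked pairs, in all states. -/

set_option autoImplicit false

namespace Pool.Agent.SOI

open Pool.Agent.SOC Pool.Agent.SOD Pool.Agent.SOS Pool.Agent.SOV Pool.Agent.SOF Pool.Agent.SOT Pool.Agent.SOK Pool.Agent.SOY
open Pool.Agent.SON Pool.Agent.RUP Pool.Agent.SOJ FP

variable {M : Mat} {C : List Cell} {F : List ℕ}

/-- the crossing relation does not depend on the states if the chords have no common pair -/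
theorem x_ind (h : Star M C F) (f : ℕ → Bool) {a b c d : Mem (L0 C)} (h1 : pt F a ≠ c) (h2 : pt F a ≠ d) (h3 : pt F b ≠ c)
    (h4 : pt F b ≠ d) : XC C f a b c d ↔ XC C (fun _ => false) a b c d := by
  have P := ptn_f h f
  have P0 := ptn h
  by_cases e : pt F a = b
  · subst e
    exact ⟨fun k => absurd k (P.cons _ _ _), fun k => absurd k (P0.cons _ _ _)⟩
  by_cases e' : pt F c = d
  · subst e'
    exact ⟨fun k => absurd (P.sep.comm k) (P.cons _ _ _), fun k => absurd (P0.sep.comm k) (P0.cons _ _ _)⟩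
  rw [xc_fl h f]
  exact SOX.fl_np P0 (dst_cst h f) ⟨e, h1, h2, h3, h4, e'⟩

/-- points of different classes are in different cells -/
theorem u_ne (h : Star M C F) {s p a c : Mem (L0 C)} (hs : pt F s = p) (hn : s ≠ p) (ha : U2 (gL M (L0 C)) s p a)
    (hc : U1 (gL M (L0 C)) s p c) : pt F a ≠ c ∧ pt F c ≠ a := by
  have key : pt F a ≠ c := by
    intro e
    have hac : c ≠ a := fun k => hc.2.2 (k ▸ ha.2)
    have := (prF h).bi s a (by rw [hs]; exact hn.symm) (by rw [e]; exact hac) ha.2.ne (by rw [hs]; exact ha.1) ha.2.symm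
      (by rw [hs, e]; exact hc.2.1.symm)
    rw [e] at this
    exact hc.2.2 this.symm
  refine ⟨key, fun e => key ?_⟩
  rw [← e]
  exact pt_inv h c

/-- members which are not in the cell -/
theorem mem_rst (h : Star M C F) {i : ℕ} (hi : i ∈ F) {z : Mem (L0 C)} (hz : ceN C z.1 ≠ i) : z.1 ∈ rstC C i := by
  have hl := h.lt i hi
  have hm := z.2
  have e := ord0_split hl
  have hm' : z.1 ∈ ((C.take i).map Prod.fst).flatten ++ (cst C i false ++ ((C.drop (i + 1)).map Prod.fst).flatten) := by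
    rw [← e]
    exact hm
  rw [List.mem_append, List.mem_append] at hm'
  unfold rstC
  rw [List.mem_append]
  rcases hm' with k | k | k
  · exact Or.inr k
  · exact absurd (ce_eq h.ok hl k) hz
  · exact Or.inl k

/-- a pair with nested neighbourhoods -/
structure ClP (M : Mat) (C : List Cell) (F : List ℕ) (s p : Mem (L0 C)) : Prop where
  pr : ∀ f, Pr4 (gL M (L0 C)) (XC C f) s p
  ty : ∀ f, TyA (gL M (L0 C)) (XC C f) s p ∨ ∃ g, TyM (gL M (L0 C)) (XC C f) s p g
  sp : ∀ f {a b}, U2 (gL M (L0 C)) s p a → U2 (gL M (L0 C)) s p b →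
    (Sp (gL M (L0 C)) (XC C f) s p a b ↔ Sp (gL M (L0 C)) (XC C fun _ => false) s p a b)

theorem sp_ind (h : Star M C F) {s p : Mem (L0 C)} (hs : pt F s = p) (hn : s ≠ p) (f : ℕ → Bool) {a b : Mem (L0 C)}
    (ha : U2 (gL M (L0 C)) s p a) (hb : U2 (gL M (L0 C)) s p b) :
    Sp (gL M (L0 C)) (XC C f) s p a b ↔ Sp (gL M (L0 C)) (XC C fun _ => false) s p a b := by
  have ns : ∀ {a : Mem (L0 C)}, a ≠ p → pt F a ≠ s := by
    intro a k e
    apply k
    rw [← hs, ← e, pt_inv h]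
  have key : ∀ g, U1 (gL M (L0 C)) s p g → (XC C f a b g s ↔ XC C (fun _ => false) a b g s) := fun g hg =>
    x_ind h f (u_ne h hs hn ha hg).1 (ns ha.1) (u_ne h hs hn hb hg).1 (ns hb.1)
  constructor
  · rintro ⟨g, hg, k⟩
    exact ⟨g, hg, (key g hg).1 k⟩
  · rintro ⟨g, hg, k⟩
    exact ⟨g, hg, (key g hg).2 k⟩

/-- THE TYPES OF THE MARKED PAIRS -/
theorem cls (h : Star M C F) {i : ℕ} (hi : i ∈ F) : ∃ s p : Mem (L0 C), ceN C s.1 = i ∧ ceN C p.1 = i ∧ s ≠ p ∧ pt F s = p ∧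
    ((∀ a, (gL M (L0 C)).Adj s a → (gL M (L0 C)).Adj p a → False) ∨ ClP M C F s p) := by
  obtain ⟨x, y, e1, hxy, hadj⟩ := h.pr _ hi
  have hl := h.lt _ hi
  have e0 : cst C i false = [x, y] := by
    unfold cst
    rw [e1]
    rfl
  have hm : ∀ z, z = x ∨ z = y → z ∈ cst C i false := by
    intro z hz
    rw [e0]
    rcases hz with rfl | rfl <;> simp
  have hm' : ∀ z, z ∈ cst C i false → z = x ∨ z = y := by
    intro z hz
    rw [e0] at hz
    simpa using hz
  have hin : ∀ z, z = x ∨ z = y → z ∈ L0 C := fun z hz => List.mem_flatMap.2 ⟨i, List.mem_range.2 hl, hm z hz⟩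
  have hce : ∀ z, z = x ∨ z = y → ceN C z = i := fun z hz => ce_eq h.ok hl (hm z hz)
  -- choice of `s, p`
  have ch : ∀ s p : Mem (L0 C), s.1 ∈ cst C i false → p.1 ∈ cst C i false → s ≠ p → ceN C s.1 = i ∧ ceN C p.1 = i ∧ s ≠ p ∧ pt F s = p ∧
      ∀ z : Mem (L0 C), z ≠ s → z ≠ p → z.1 ∈ rstC C i := by
    intro s p hs hp hn
    have c1 := hce _ (hm' _ hs)
    have c2 := hce _ (hm' _ hp)
    have hm := pt_mark h (a := s) (by rw [c1]; exact hi)
    have e : pt F s = p := ((hm.2.2.2 p (c2.trans c1.symm)).resolve_left hn.symm).symm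
    refine ⟨c1, c2, hn, e, fun z h1 h2 => mem_rst h hi fun k => ?_⟩
    rcases hm.2.2.2 z (k.trans c1.symm) with q | q
    · exact h1 q
    · exact h2 (q.trans e)
  obtain ⟨ep, ty⟩ := h.st i hi
  rcases ty with ⟨cl, hc⟩ | ⟨cl, hc⟩ | ⟨cl, hc⟩
  · -- nested neighbourhoods
    obtain ⟨s', hs1, hs2, hs3⟩ := hc.wL false
    obtain ⟨p', hp1, hp2, hp3⟩ := hc.wL true
    have hs0 := hin _ (hm' _ hs1)
    have hp0 := hin _ (hm' _ hp1)
    have hsp : s' ≠ p' := by
      rintro rfl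
      rw [hs3] at hp3
      cases hp3
    obtain ⟨s, vs⟩ : ∃ s : Mem (L0 C), s.1 = s' := ⟨⟨s', hs0⟩, rfl⟩
    obtain ⟨p, vp⟩ : ∃ p : Mem (L0 C), p.1 = p' := ⟨⟨p', hp0⟩, rfl⟩
    obtain ⟨c1, c2, c3, c4, c5⟩ := ch s p (by rw [vs]; exact hs1) (by rw [vp]; exact hp1)
      (fun k => hsp (by rw [← vs, ← vp, k]))
    -- neighbours
    have att : ∀ {z : Mem (L0 C)}, (gL M (L0 C)).Adj z s ∨ (gL M (L0 C)).Adj z p → Atd (gN M) (cst C i false) z.1 := by
      rintro z (k | k)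
      · exact ⟨s', hs1, vs ▸ k⟩
      · exact ⟨p', hp1, vp ▸ k⟩
    have adS : ∀ {z : Mem (L0 C)}, z.1 ∈ rstC C i → Atd (gN M) (cst C i false) z.1 → ((gL M (L0 C)).Adj z s ↔ cl z.1 = true) := by
      intro z h1 h2
      have := hc.adj hs1 h1 hs2 h2
      have e : (gL M (L0 C)).Adj z s ↔ (gN M).Adj s' z.1 := by
        rw [SimpleGraph.adj_comm, ← vs]
        exact Iff.rfl
      rw [e, this, fP, hs3]
      simp
    have adP : ∀ {z : Mem (L0 C)}, z.1 ∈ rstC C i → Atd (gN M) (cst C i false) z.1 → (gL M (L0 C)).Adj z p := by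
      intro z h1 h2
      have := hc.adj hp1 h1 hp2 h2
      have e : (gL M (L0 C)).Adj z p ↔ (gN M).Adj p' z.1 := by
        rw [SimpleGraph.adj_comm, ← vp]
        exact Iff.rfl
      rw [e, this, fP, hp3]
      simp
    have u2r : ∀ {z : Mem (L0 C)}, U2 (gL M (L0 C)) s p z → z.1 ∈ rstC C i ∧ Atd (gN M) (cst C i false) z.1 ∧ (gL M (L0 C)).Adj z p :=
      fun {z} hz => ⟨c5 z hz.2.ne hz.1, att (Or.inl hz.2), adP (c5 z hz.2.ne hz.1) (att (Or.inl hz.2))⟩
    have u1r : ∀ {z : Mem (L0 C)}, U1 (gL M (L0 C)) s p z → z.1 ∈ rstC C i ∧ Atd (gN M) (cst C i false) z.1 :=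
      fun {z} hz => ⟨c5 z hz.1 hz.2.1.ne, att (Or.inr hz.2.1)⟩
    have sub : ∀ {a : Mem (L0 C)}, a ≠ p → (gL M (L0 C)).Adj a s → (gL M (L0 C)).Adj a p := fun h1 h2 => (u2r ⟨h1, h2⟩).2.2
    have hspA : (gL M (L0 C)).Adj s p := by
      have := (pt_mark h (a := s) (by rw [c1]; exact hi)).2.2.1
      rw [c4] at this
      exact this
    have clq : ∀ {a b : Mem (L0 C)}, U2 (gL M (L0 C)) s p a → U1 (gL M (L0 C)) s p b → (gL M (L0 C)).Adj a b := by
      intro a b ha hb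
      have hab : a ≠ b := fun k => hb.2.2 (k ▸ ha.2)
      have m1 : (gN M).Adj s' a.1 := vs ▸ ha.2.symm
      have m2 : (gN M).Adj p' b.1 := vp ▸ hb.2.1.symm
      rcases ep.rig hs1 (u2r ha).1 hp1 (u1r hb).1 m1 m2 hsp (fun k => hab (Subtype.ext k)) with k | k
      · exact k.2
      · exact absurd (show (gL M (L0 C)).Adj b s by
          have k1 := k.1
          rw [← vs] at k1
          exact k1.symm) hb.2.2
    have Pr : ∀ f, Pr4 (gL M (L0 C)) (XC C f) s p := fun f =>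
      ⟨hspA, fun c d k => (ptn_f h f).cons s c d (by rw [c4]; exact k), sub, clq⟩
    refine ⟨s, p, c1, c2, c3, c4, Or.inr ⟨Pr, ?_, fun f {a b} ha hb => sp_ind h c4 c3 f ha hb⟩⟩
    -- the blocks
    obtain ⟨b1, b2, b3, sR, eR, hR⟩ := h.wd i hi
    obtain ⟨s1, s2, s3, rfl⟩ : ∃ s1 s2 s3, sR = [s1, s2, s3] := by
      have hlen := hR.len
      match sR, hlen with
      | [s1, s2, s3], _ => exact ⟨s1, s2, s3, rfl⟩
    have eR' : rstC C i = s1 ++ (s2 ++ s3) := by
      rw [← eR]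
      simp
    obtain ⟨s0, K, S1, S2, S3, hB, vK, v1, v2, v3, hX⟩ := base h hi eR'
    have memb : ∀ {S : List (Mem (L0 C))} {t : List ℕ} {z : Mem (L0 C)}, S.map Subtype.val = t → z.1 ∈ t → z ∈ S := by
      intro S t z hS hz
      rw [← hS] at hz
      obtain ⟨w, hw, e⟩ := List.mem_map.1 hz
      rwa [← Subtype.ext e]
    have sK : s ∈ K := memb vK (by rw [vs]; exact hs1)
    have i1 : ∀ {z : ℕ}, z ∈ s1 → InS [s1, s2, s3] 0 z := fun hz => ⟨s1, rfl, hz⟩
    have i2 : ∀ {z : ℕ}, z ∈ s2 → InS [s1, s2, s3] 1 z := fun hz => ⟨s2, rfl, hz⟩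
    have i3 : ∀ {z : ℕ}, z ∈ s3 → InS [s1, s2, s3] 2 z := fun hz => ⟨s3, rfl, hz⟩
    obtain ⟨⟨t1, q1, r1⟩, a1⟩ := hR.rep (i := 0) (b := b1) rfl
    obtain ⟨⟨t2, q2, r2⟩, a2⟩ := hR.rep (i := 1) (b := b2) rfl
    obtain ⟨⟨t3, q3, r3⟩, a3⟩ := hR.rep (i := 2) (b := b3) rfl
    obtain rfl : s1 = t1 := by simpa using q1
    obtain rfl : s2 = t2 := by simpa using q2
    obtain rfl : s3 = t3 := by simpa using q3
    have n12 := hR.mx (i := 0) (b := b1) (c := b2) rfl rfl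
    have n23 := hR.mx (i := 1) (b := b2) (c := b3) rfl rfl
    have rR : ∀ {z : ℕ}, z ∈ s1 ∨ z ∈ s2 ∨ z ∈ s3 → z ∈ rstC C i := by
      intro z hz
      rw [eR', List.mem_append, List.mem_append]
      exact hz
    have inL0 : ∀ {z : ℕ}, z ∈ rstC C i → z ∈ L0 C := by
      intro z hz
      rw [ord0_split hl]
      unfold rstC at hz
      rw [List.mem_append] at hz
      rw [List.mem_append, List.mem_append]
      rcases hz with k | k
      · exact Or.inr (Or.inr k)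
      · exact Or.inl k
    have R1 := rR (Or.inl r1)
    have R2 := rR (Or.inr (Or.inl r2))
    have R3 := rR (Or.inr (Or.inr r3))
    -- rows
    have row : ∀ {z w : Mem (L0 C)}, z.1 ∈ rstC C i → w.1 ∈ rstC C i → Atd (gN M) (cst C i false) z.1 → Atd (gN M) (cst C i false) w.1 →
        (SR (gN M) (cst C i false) z.1 w.1 ↔ ((gL M (L0 C)).Adj z s ↔ (gL M (L0 C)).Adj w s)) := by
      intro z w h1 h2 h3 h4
      constructor
      · intro k
        have := k s' hs1
        rw [← vs] at this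
        exact this
      · intro k o ho
        have ho' : o = s' ∨ o = p' := by
          have m1 := hm' _ ho
          have m2 := hm' _ hs1
          have m3 := hm' _ hp1
          rcases m1 with rfl | rfl <;> rcases m2 with rfl | rfl <;> rcases m3 with rfl | rfl
          all_goals first
            | exact Or.inl rfl
            | exact Or.inr rfl
            | exact absurd rfl hsp
        rcases ho' with rfl | rfl
        · rw [← vs]
          exact k
        · have k1 := adP h1 h3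
          have k2 := adP h2 h4
          rw [← vp]
          exact ⟨fun _ => k2, fun _ => k1⟩
    obtain ⟨B1, E1⟩ : ∃ B : Mem (L0 C), B.1 = b1 := ⟨⟨b1, inL0 R1⟩, rfl⟩
    obtain ⟨B2, E2⟩ : ∃ B : Mem (L0 C), B.1 = b2 := ⟨⟨b2, inL0 R2⟩, rfl⟩
    obtain ⟨B3, E3⟩ : ∃ B : Mem (L0 C), B.1 = b3 := ⟨⟨b3, inL0 R3⟩, rfl⟩
    rw [← E1] at a1 r1 R1 n12
    rw [← E2] at a2 r2 R2 n12 n23
    rw [← E3] at a3 r3 R3 n23
    rw [row R1 R2 a1 a2] at n12
    rw [row R2 R3 a2 a3] at n23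
    have sm : ∀ {z : Mem (L0 C)}, Atd (gN M) (cst C i false) z.1 → (z.1 ∈ s1 → ((gL M (L0 C)).Adj z s ↔ (gL M (L0 C)).Adj B1 s)) ∧
        (z.1 ∈ s2 → ((gL M (L0 C)).Adj z s ↔ (gL M (L0 C)).Adj B2 s)) ∧ (z.1 ∈ s3 → ((gL M (L0 C)).Adj z s ↔ (gL M (L0 C)).Adj B3 s)) := by
      intro z hz
      refine ⟨fun k => (row (rR (Or.inl k)) R1 hz a1).1 (hR.same (i1 k) (i1 r1) hz a1),
        fun k => (row (rR (Or.inr (Or.inl k))) R2 hz a2).1 (hR.same (i2 k) (i2 r2) hz a2),
        fun k => (row (rR (Or.inr (Or.inr k))) R3 hz a3).1 (hR.same (i3 k) (i3 r3) hz a3)⟩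
    have sR : ∀ {z : Mem (L0 C)}, z.1 ∈ rstC C i → z.1 ∈ s1 ∨ z.1 ∈ s2 ∨ z.1 ∈ s3 := by
      intro z hz
      rw [eR', List.mem_append, List.mem_append] at hz
      exact hz
    have ns : ∀ {a : Mem (L0 C)}, a ≠ p → pt F a ≠ s := by
      intro a k e
      apply k
      rw [← c4, ← e, pt_inv h]
    have nR : ∀ {z : Mem (L0 C)}, z.1 ∈ rstC C i → z ≠ s ∧ z ≠ p := by
      intro z hz
      have hd : ∀ {w : ℕ}, w ∈ cst C i false → w ∈ rstC C i → False := by
        intro w k1 k2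
        have hnd : (L0 C).Nodup := h.ok.nd
        rw [ord0_split hl] at hnd
        unfold rstC at k2
        rw [List.mem_append] at k2
        rcases k2 with k2 | k2
        · exact (List.disjoint_of_nodup_append (List.nodup_append.1 hnd).2.1) k1 k2
        · exact (List.disjoint_of_nodup_append hnd) k2 (List.mem_append_left _ k1)
      refine ⟨fun e => hd hs1 ?_, fun e => hd hp1 ?_⟩
      · rw [← vs, ← e]
        exact hz
      · rw [← vp, ← e]
        exact hz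
    intro f
    by_cases hb2 : (gL M (L0 C)).Adj B2 s
    · -- word 121
      have hb1 : ¬ (gL M (L0 C)).Adj B1 s := fun k => n12 ⟨fun _ => hb2, fun _ => k⟩
      have hb3 : ¬ (gL M (L0 C)).Adj B3 s := fun k => n23 ⟨fun _ => k, fun _ => hb2⟩
      have U1B1 : U1 (gL M (L0 C)) s p B1 := ⟨(nR R1).1, adP R1 a1, hb1⟩
      have U1B3 : U1 (gL M (L0 C)) s p B3 := ⟨(nR R3).1, adP R3 a3, hb3⟩
      have m2 : ∀ {a}, U2 (gL M (L0 C)) s p a → a ∈ S2 := by
        intro a ha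
        obtain ⟨h1, h2, -⟩ := u2r ha
        rcases sR h1 with k | k | k
        · exact absurd (((sm h2).1 k).1 ha.2) hb1
        · exact memb v2 k
        · exact absurd (((sm h2).2.2 k).1 ha.2) hb3
      have m1 : ∀ {a}, U1 (gL M (L0 C)) s p a → a ∈ S1 ∨ a ∈ S3 := by
        intro a ha
        obtain ⟨h1, h2⟩ := u1r ha
        rcases sR h1 with k | k | k
        · exact Or.inl (memb v1 k)
        · exact absurd (((sm h2).2.1 k).2 hb2) ha.2.2
        · exact Or.inr (memb v3 k)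
      refine Or.inl ⟨⟨B1, B3, U1B1, U1B3, fun a ha => ?_⟩, fun {a b} ha hb k => ?_⟩
      · refine (x_ind h f (ns U1B1.2.1.ne) (u_ne h c4 c3 ha U1B1).2 (ns U1B3.2.1.ne) (u_ne h c4 c3 ha U1B3).2).2 ?_
        rw [hX]
        exact hB.x1 sK (m2 ha) (memb v1 r1) (memb v3 r3)
      · rw [sp_ind h c4 c3 f ha hb] at k
        obtain ⟨g, hg, k⟩ := k
        rw [hX] at k
        exact hB.x2 sK (m2 ha) (m2 hb) (m1 hg) k
    · -- word 212
      have hb1 : (gL M (L0 C)).Adj B1 s := by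
        by_contra k
        exact n12 ⟨fun q => absurd q k, fun q => absurd q hb2⟩
      have hb3 : (gL M (L0 C)).Adj B3 s := by
        by_contra k
        exact n23 ⟨fun q => absurd q hb2, fun q => absurd q k⟩
      have m2 : ∀ {a}, U2 (gL M (L0 C)) s p a → a ∈ S1 ∨ a ∈ S3 := by
        intro a ha
        obtain ⟨h1, h2, -⟩ := u2r ha
        rcases sR h1 with k | k | k
        · exact Or.inl (memb v1 k)
        · exact absurd (((sm h2).2.1 k).1 ha.2) hb2
        · exact Or.inr (memb v3 k)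
      have m1 : ∀ {a}, U1 (gL M (L0 C)) s p a → a ∈ S2 := by
        intro a ha
        obtain ⟨h1, h2⟩ := u1r ha
        rcases sR h1 with k | k | k
        · exact absurd (((sm h2).1 k).2 hb1) ha.2.2
        · exact memb v2 k
        · exact absurd (((sm h2).2.2 k).2 hb3) ha.2.2
      have U1B2 : U1 (gL M (L0 C)) s p B2 := ⟨(nR R2).1, adP R2 a2, hb2⟩
      refine Or.inr ⟨B2, U1B2, fun {a b c} ha hb hc k => ?_⟩
      rw [x_ind h f (u_ne h c4 c3 ha U1B2).1 (u_ne h c4 c3 ha hc).1 (u_ne h c4 c3 hb U1B2).1 (u_ne h c4 c3 hb hc).1, hX] at k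
      exact hB.x3 (m1 U1B2) (m1 hc) (m2 ha) (m2 hb) k
  · -- disjoint neighbourhoods
    obtain ⟨s', hs1, hs2, hs3⟩ := hc.wL false
    obtain ⟨p', hp1, hp2, hp3⟩ := hc.wL true
    have hs0 := hin _ (hm' _ hs1)
    have hp0 := hin _ (hm' _ hp1)
    have hsp : s' ≠ p' := by
      rintro rfl
      rw [hs3] at hp3
      cases hp3
    obtain ⟨c1, c2, c3, c4, c5⟩ := ch ⟨s', hs0⟩ ⟨p', hp0⟩ hs1 hp1 (fun k => hsp (congrArg Subtype.val k))
    refine ⟨_, _, c1, c2, c3, c4, Or.inl fun a h1 h2 => ?_⟩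
    have hR := c5 a h1.ne.symm h2.ne.symm
    have hat : Atd (gN M) (cst C i false) a.1 := ⟨s', hs1, h1.symm⟩
    have k1 := (hc.adj hs1 hR hs2 hat).1 h1
    have k2 := (hc.adj hp1 hR hp2 hat).1 h2
    unfold fK at k1 k2
    rw [hs3] at k1
    rw [hp3, ← k1] at k2
    cases k2
  · -- three classes
    exfalso
    obtain ⟨a0, m0, -, q0⟩ := hc.wL 0
    obtain ⟨a1, m1, -, q1⟩ := hc.wL 1
    obtain ⟨a2, m2, -, q2⟩ := hc.wL 2
    have n01 : a0 ≠ a1 := by
      rintro rfl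
      rw [q0] at q1
      cases q1
    have n02 : a0 ≠ a2 := by
      rintro rfl
      rw [q0] at q2
      cases q2
    have n12 : a1 ≠ a2 := by
      rintro rfl
      rw [q1] at q2
      cases q2
    rcases hm' _ m0 with rfl | rfl <;> rcases hm' _ m1 with rfl | rfl <;> rcases hm' _ m2 with rfl | rfl <;> simp_all

end Pool.Agent.SOI
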