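import Pool.Agent.SON.Defs

/-! Project SOI (MP_66ba69_lc, the rigid step: the parameters of the solver for a star of pairs), module Defs. -/

set_option autoImplicit false

namespace Pool.Agent.SOI

open Pool.Agent.SOC Pool.Agent.SOD Pool.Agent.SOS Pool.Agent.SOV Pool.Agent.SOF Pool.Agent.SOT Pool.Agent.SOK Pool.Agent.SOY
open Pool.Agent.SON FP

/-- `a` and `b` are separated from the pair `x, y` by a point which is adjacent to exactly one of `x, y` -/
def sepB (M : Mat) (C : List Cell) (x y a b : ℕ) : Bool :=
  (L0 C).any fun f => decide (f ≠ x) && (decide (f ≠ y) && (xor (adjB M f x) (adjB M f y) && crC C (fun _ => false) a b f x))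

/-- the marked pairs, in both orders -/
def prsF (C : List Cell) (F : List ℕ) : List (ℕ × ℕ) :=
  F.flatMap fun i => (cst C i false).flatMap fun x => ((cst C i false).filter fun y => decide (x ≠ y)).map fun y => (x, y)

/-- the first prescribed quartets -/
def u1a (M : Mat) (C : List Cell) (F : List ℕ) (t : Bool) : List Qd :=
  (prsF C F).flatMap fun p => (L0 C).flatMap fun a =>
    ((L0 C).filter fun b => k4B M p.1 p.2 a b && decide (sepB M C p.1 p.2 a b = t)).map fun b => (p.1, p.2, a, b)

/-- the second prescribed quartets -/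
def u1b (M : Mat) (C : List Cell) (F : List ℕ) : List Qd :=
  (prsF C F).flatMap fun p => (L0 C).flatMap fun a => (L0 C).flatMap fun b =>
    ((L0 C).filter fun c => k5B M p.1 p.2 a b c && (sepB M C p.1 p.2 a b && sepB M C p.1 p.2 a c)).map fun c => (p.1, a, b, c)

/-- THE PARAMETERS -/
def prm (M : Mat) (C : List Cell) (F : List ℕ) : Prm := (F, [], u1a M C F false ++ u1b M C F, u1a M C F true)

end Pool.Agent.SOI
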