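import Pool.Agent.SOI.Sep

/-! Project SOI (MP_66ba69_lc), module Main: normal form and the condition for complete graphs on five vertices, for a star of pairs. -/

set_option autoImplicit false

namespace Pool.Agent.SOI

open Pool.Agent.SOC Pool.Agent.SOD Pool.Agent.SOS Pool.Agent.SOV Pool.Agent.SOF Pool.Agent.SOT Pool.Agent.SOK Pool.Agent.SOY
open Pool.Agent.SON Pool.Agent.RUP Pool.Agent.SOJ FP

variable {M : Mat} {C : List Cell} {F : List ℕ}

/-! ### separated points -/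

section
variable {V : Type} {G : SimpleGraph V} {X T : V → V → V → V → Prop} {s p f : V}

theorem spf_m (hX : Sepr X) (tn : TyM G X s p f) {a b : V} (ha : U2 G s p a) (hb : U2 G s p b) (h : Sp G X s p a b) : X a b f s := by
  obtain ⟨c, hc, h1⟩ := h
  by_cases e : c = f
  · rw [← e]
    exact h1
  have hf := tn.f1
  rcases hX.add2 (sxr hX h1) e hf.1.symm (u12 ha hf) (u12 hb hf) with h2 | h2
  · exact absurd (sxr hX h2) (tn.one ha hb hc)
  · exact sxr hX h2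

theorem sp1 (hX : Sepr X) {a b c : V} (hb : U2 G s p b) (n1 : a ≠ b) (n2 : b ≠ c) (h : Sp G X s p a c) : Sp G X s p a b ∨ Sp G X s p b c := by
  obtain ⟨g, hg, h1⟩ := h
  rcases hX.add2 (hX.comm h1) n2.symm n1 (u12 hb hg).symm hb.2.ne.symm with h2 | h2
  · exact Or.inr ⟨g, hg, hX.swap (hX.comm h2)⟩
  · exact Or.inl ⟨g, hg, hX.comm h2⟩

theorem sp2 (hX : Sepr X) (ty : TyA G X s p ∨ ∃ g, TyM G X s p g) {a b c : V} (ha : U2 G s p a) (hb : U2 G s p b) (hc : U2 G s p c)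
    (h1 : Sp G X s p a b) (h2 : Sp G X s p a c) (h3 : Sp G X s p b c) : False := by
  rcases ty with ty | ⟨g, ty⟩
  · exact ty.ns ha hb h1
  · exact hX.add (hX.comm (spf_m hX ty ha hb h1)) (hX.comm (spf_m hX ty hb hc h3)) (hX.comm (spf_m hX ty ha hc h2))

theorem sp3 (hX : Sepr X) (ty : TyA G X s p ∨ ∃ g, TyM G X s p g) {a b c : V} (ha : U2 G s p a) (hb : U2 G s p b) (hc : U2 G s p c)
    (h1 : Sp G X s p a b) (h2 : Sp G X s p a c) : ¬ X s a b c := by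
  rcases ty with ty | ⟨g, ty⟩
  · exact absurd h1 (ty.ns ha hb)
  · intro k
    have k1 := spf_m hX ty ha hb h1
    have k2 := spf_m hX ty ha hc h2
    have hg := ty.f1
    rcases hX.add2 k (u12 hc hg) (u12 hb hg) hg.1.symm (u12 ha hg) with q | q
    · exact hX.amo (sxr hX k2) (hX.swap q)
    · exact hX.amo (sxr hX k1) (hX.swap q)

end

/-- the two points of a marked pair -/
theorem pair_of (h : Star M C F) {x y : Mem (L0 C)} (e : pt F x = y) (n : x ≠ y) : ∃ s p : Mem (L0 C),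
    ((x = s ∧ y = p) ∨ (x = p ∧ y = s)) ∧ pt F s = p ∧ s ≠ p ∧ ceN C s.1 = ceN C x.1 ∧
    ((∀ a, (gL M (L0 C)).Adj s a → (gL M (L0 C)).Adj p a → False) ∨ ClP M C F s p) := by
  have hi := (ec_iff.1 ((ec_pt h n).2 e)).2
  obtain ⟨s, p, c1, c2, c3, c4, c5⟩ := cls h hi
  refine ⟨s, p, ?_, c4, c3, c1, c5⟩
  have hm := pt_mark h hi
  rw [e] at hm
  rcases hm.2.2.2 s c1 with q1 | q1 <;> rcases hm.2.2.2 p c2 with q2 | q2
  · exact absurd (q1.trans q2.symm) c3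
  · exact Or.inl ⟨q1.symm, q2.symm⟩
  · exact Or.inr ⟨q2.symm, q1.symm⟩
  · exact absurd (q1.trans q2.symm) c3

/-- `sepB` for both orders of the pair -/
theorem sepB_sp (h : Star M C F) {s p x y a b : Mem (L0 C)} (c : ClP M C F s p) (e : (x = s ∧ y = p) ∨ (x = p ∧ y = s))
    (ha : U2 (gL M (L0 C)) s p a) (hb : U2 (gL M (L0 C)) s p b) (f : ℕ → Bool) :
    sepB M C x.1 y.1 a.1 b.1 = true ↔ Sp (gL M (L0 C)) (XC C f) s p a b := by
  rw [sepB_iff, c.sp f ha hb]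
  have hX := YF_sepr h.ok (fun _ => false)
  have hp := c.pr (fun _ => false)
  rcases e with ⟨rfl, rfl⟩ | ⟨rfl, rfl⟩
  · constructor
    · rintro ⟨g, h1, h2, h3, h4⟩
      refine ⟨g, ?_, h4⟩
      by_cases k : (gL M (L0 C)).Adj g x
      · exact absurd (hp.sub h2 k) (h3.1 k)
      · refine ⟨h1, ?_, k⟩
        by_contra q
        exact k (h3.2 q)
    · rintro ⟨g, hg, h4⟩
      exact ⟨g, hg.1, hg.2.1.ne, ⟨fun k => absurd k hg.2.2, fun k => absurd hg.2.1 k⟩, h4⟩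
  · constructor
    · rintro ⟨g, h1, h2, h3, h4⟩
      have k : ¬ (gL M (L0 C)).Adj g y := fun k => (h3.1 (hp.sub h1 k)) k
      refine ⟨g, ⟨h2, h3.2 k, k⟩, ?_⟩
      rcases hX.add2 h4 hp.adj.ne.symm h2 ha.2.ne hb.2.ne with q | q
      · exact absurd (hX.swap (hX.comm q)) (hp.cons _ _)
      · exact q
    · rintro ⟨g, hg, h4⟩
      refine ⟨g, hg.2.1.ne, hg.1, ⟨fun _ => hg.2.2, fun _ => hg.2.1⟩, ?_⟩
      rcases hX.add2 h4 hp.adj.ne hg.2.1.ne ha.1 hb.1 with q | q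
      · exact absurd (hX.comm q) (hp.cons _ _)
      · exact q

/-- the statements for complete graphs, in both orders of the pair -/
theorem k_u2 (_ : Star M C F) {s p x y a : Mem (L0 C)} (c : ClP M C F s p) (e : (x = s ∧ y = p) ∨ (x = p ∧ y = s))
    (h1 : (gL M (L0 C)).Adj x a) (h2 : (gL M (L0 C)).Adj y a) : U2 (gL M (L0 C)) s p a := by
  rcases e with ⟨rfl, rfl⟩ | ⟨rfl, rfl⟩
  · exact ⟨h2.ne.symm, h1.symm⟩
  · exact ⟨h1.ne.symm, h2.symm⟩

theorem nok {s p x y a : Mem (L0 C)} (c : ∀ a, (gL M (L0 C)).Adj s a → (gL M (L0 C)).Adj p a → False)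
    (e : (x = s ∧ y = p) ∨ (x = p ∧ y = s)) (h1 : (gL M (L0 C)).Adj x a) (h2 : (gL M (L0 C)).Adj y a) : False := by
  rcases e with ⟨rfl, rfl⟩ | ⟨rfl, rfl⟩
  · exact c a h1 h2
  · exact c a h2 h1

/-- the list of pairs -/
theorem prs_list (h : Star M C F) : ∀ l : List ℕ, l.Nodup → (∀ i ∈ l, i ∈ F) → ∃ L : List (Mem (L0 C) × Mem (L0 C)),
    (∀ i ∈ l, ∃ u ∈ L, ceN C u.1.1 = i) ∧ (∀ u ∈ L, ceN C u.1.1 ∈ l ∧ ceN C u.2.1 = ceN C u.1.1 ∧ u.1 ≠ u.2 ∧ pt F u.1 = u.2 ∧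
      ((∀ a, (gL M (L0 C)).Adj u.1 a → (gL M (L0 C)).Adj u.2 a → False) ∨ ClP M C F u.1 u.2)) ∧
    L.Pairwise (fun u v => ceN C u.1.1 ≠ ceN C v.1.1)
  | [], _, _ => ⟨[], by simp, by simp, List.Pairwise.nil⟩
  | i :: l, hn, hF => by
    obtain ⟨L, h1, h2, h3⟩ := prs_list h l (List.nodup_cons.1 hn).2 (fun j hj => hF j (List.mem_cons_of_mem _ hj))
    obtain ⟨s, p, c1, c2, c3, c4, c5⟩ := cls h (hF i List.mem_cons_self)
    refine ⟨(s, p) :: L, ?_, ?_, ?_⟩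
    · intro j hj
      rcases List.mem_cons.1 hj with rfl | hj
      · exact ⟨_, List.mem_cons_self, c1⟩
      · obtain ⟨u, hu, e⟩ := h1 j hj
        exact ⟨u, List.mem_cons_of_mem _ hu, e⟩
    · intro u hu
      rcases List.mem_cons.1 hu with rfl | hu
      · exact ⟨by rw [c1]; exact List.mem_cons_self, c2.trans c1.symm, c3, c4, c5⟩
      · obtain ⟨q1, q2⟩ := h2 u hu
        exact ⟨List.mem_cons_of_mem _ q1, q2⟩
    · refine List.pairwise_cons.2 ⟨fun v hv e => ?_, h3⟩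
      have := (h2 v hv).1
      rw [← e, c1] at this
      exact (List.nodup_cons.1 hn).1 this

/-- a structure in normal form at all marked pairs -/
theorem norm_all (h : Star M C F) {f : ℕ → Bool} {T : Mem (L0 C) → Mem (L0 C) → Mem (L0 C) → Mem (L0 C) → Prop}
    (q : QT (gL M (L0 C)) (XC C f) T) : ∃ T', QT (gL M (L0 C)) (XC C f) T' ∧ ∀ s p : Mem (L0 C), pt F s = p → s ≠ p →
      ClP M C F s p → NFp (gL M (L0 C)) (XC C f) T' s p := by
  have hX := YF_sepr h.ok f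
  obtain ⟨L, h1, h2, h3⟩ := prs_list h ((List.range C.length).filter fun i => decide (i ∈ F))
    (List.nodup_range.filter _) (fun i hi => by
      rw [List.mem_filter, decide_eq_true_eq] at hi
      exact hi.2)
  obtain ⟨T', q', hN⟩ := norm_list hX q L (fun u hu => by
      obtain ⟨-, -, -, -, k⟩ := h2 u hu
      rcases k with k | k
      · exact Or.inl k
      · exact Or.inr ⟨k.pr f, k.ty f⟩) (by
    refine List.Pairwise.imp_of_mem ?_ h3
    intro u v hu hv hne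
    obtain ⟨-, a1, a2, a3, -⟩ := h2 u hu
    obtain ⟨-, b1, b2, b3, -⟩ := h2 v hv
    refine ⟨fun e => hne (by rw [e]), fun e => hne (by rw [← b1, ← e]), fun e => hne (by rw [← a1, e]),
      fun e => hne (by rw [← a1, ← b1, e]), fun k1 k2 => ?_⟩
    have b3' : pt F v.2 = v.1 := by rw [← b3, pt_inv h]
    have := (prF h).bi u.1 v.2 (by rw [a3]; exact a2.symm) (by rw [b3']; exact b2) (fun e => hne (by rw [← b1, ← e]))
      (fun e => hne (by rw [← a1, ← b1, e, a3])) k1 (by rw [a3, b3']; exact k2)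
    rw [b3'] at this
    exact this)
  refine ⟨T', q', fun s p e n c => ?_⟩
  have hi := ec_iff.1 ((ec_pt h n).2 e)
  obtain ⟨u, hu, k⟩ := h1 (ceN C s.1) (by
    rw [List.mem_filter, decide_eq_true_eq, List.mem_range]
    exact ⟨(ce_mem h.ok s.2).1, hi.2⟩)
  obtain ⟨-, a1, a2, a3, a4⟩ := h2 u hu
  have hm := pt_mark h hi.2
  rw [e] at hm
  have hNu := hN u hu
  rcases hm.2.2.2 u.1 k with q1 | q1
  · have q2 : u.2 = p := by rw [← a3, q1, e]
    rw [q1, q2] at hNu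
    exact hNu
  · -- the other order: both are nested, so there are no points adjacent to one of them only; impossible
    have q2 : u.2 = s := by rw [← a3, q1, ← e, pt_inv h]
    rcases a4 with a4 | a4
    · exact nf_triv (fun a m1 m2 => a4 a (by rw [q1]; exact m2) (by rw [q2]; exact m1))
    · rw [q1, q2] at a4 hNu
      -- both `ClP s p` and `ClP p s`
      have P1 := c.pr f
      have P2 := a4.pr f
      exfalso
      rcases c.ty f with t | ⟨g, t⟩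
      · obtain ⟨y, z, hy, -, -⟩ := t.wit
        exact hy.2.2 (P2.sub hy.1 hy.2.1)
      · exact t.f1.2.2 (P2.sub t.f1.1 t.f1.2.1)

/-- the values in normal form -/
theorem nf_vals (h : Star M C F) {f : ℕ → Bool} {T : Mem (L0 C) → Mem (L0 C) → Mem (L0 C) → Mem (L0 C) → Prop}
    (q : QT (gL M (L0 C)) (XC C f) T)
    (hN : ∀ s p : Mem (L0 C), pt F s = p → s ≠ p → ClP M C F s p → NFp (gL M (L0 C)) (XC C f) T s p)
    {x y : Mem (L0 C)} (e : pt F x = y) (n : x ≠ y) :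
    (∀ {a b}, K4 (gL M (L0 C)) x y a b → (T x y a b ↔ sepB M C x.1 y.1 a.1 b.1 = false)) ∧
    (∀ {a b c}, K5 (gL M (L0 C)) x y a b c → T x a b c → T y a b c) ∧
    (∀ {a b c}, K5 (gL M (L0 C)) x y a b c → sepB M C x.1 y.1 a.1 b.1 = true → sepB M C x.1 y.1 a.1 c.1 = true → T x a b c) := by
  obtain ⟨s, p, h1, h2, h3, -, h4⟩ := pair_of h e n
  rcases h4 with h4 | h4
  · exact ⟨fun k => (nok h4 h1 k.2.1 k.2.2.2.1).elim, fun k => (nok h4 h1 k.2.1 k.2.2.2.2.1).elim,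
      fun k => (nok h4 h1 k.2.1 k.2.2.2.2.1).elim⟩
  have N := hN s p h2 h3 h4
  have sb : ∀ {a b}, U2 (gL M (L0 C)) s p a → U2 (gL M (L0 C)) s p b →
      (sepB M C x.1 y.1 a.1 b.1 = false ↔ ¬ Sp (gL M (L0 C)) (XC C f) s p a b) := by
    intro a b ha hb
    rw [← sepB_sp h h4 h1 ha hb f, Bool.not_eq_true]
  refine ⟨?_, ?_, ?_⟩
  · intro a b k
    have ha := k_u2 h h4 h1 k.2.1 k.2.2.2.1
    have hb := k_u2 h h4 h1 k.2.2.1 k.2.2.2.2.1
    rw [sb ha hb]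
    rcases h1 with ⟨rfl, rfl⟩ | ⟨rfl, rfl⟩
    · exact ⟨fun g g' => N.a0 k g' g, fun g => N.a1 k g⟩
    · have k' : K4 (gL M (L0 C)) y x a b := ⟨k.1.symm, k.2.2.2.1, k.2.2.2.2.1, k.2.1, k.2.2.1, k.2.2.2.2.2⟩
      exact ⟨fun g g' => N.a0 k' g' (q.swap₁ g), fun g => q.swap₁ (N.a1 k' g)⟩
  · intro a b c k
    obtain ⟨k0, k1, k2, k3, k4, k5, k6, k7, k8, k9⟩ := id k
    rcases h1 with ⟨rfl, rfl⟩ | ⟨rfl, rfl⟩
    · exact (N.b k).1
    · exact (N.b ⟨k0.symm, k4, k5, k6, k1, k2, k3, k7, k8, k9⟩).2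
  · intro a b c k w1 w2
    obtain ⟨k0, k1, k2, k3, k4, k5, k6, k7, k8, k9⟩ := id k
    have ha := k_u2 h h4 h1 k1 k4
    have hb := k_u2 h h4 h1 k2 k5
    have hc := k_u2 h h4 h1 k3 k6
    have w1' := (sepB_sp h h4 h1 ha hb f).1 w1
    have w2' := (sepB_sp h h4 h1 ha hc f).1 w2
    rcases h1 with ⟨rfl, rfl⟩ | ⟨rfl, rfl⟩
    · exact N.c k w1' w2'
    · have k' : K5 (gL M (L0 C)) y x a b c := ⟨k0.symm, k4, k5, k6, k1, k2, k3, k7, k8, k9⟩
      exact (N.b k').1 (N.c k' w1' w2')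

/-- NORMAL FORM -/
theorem star_norm (h : Star M C F) {f : ℕ → Bool} (hv : Val (gN M) (ordC C f)) : ∃ T, QC M C (prm M C F) f T := by
  obtain ⟨s, hs, hm, hx⟩ := ex_enum h.ok f
  have e : CrD s = XC C f := by
    funext a b c d
    exact propext (hx a b c d).symm
  rw [← hm, ← Val_map (G' := gL M (L0 C)) (G := gN M) (l := s)
    (f := Subtype.val) (fun _ _ _ _ h => Subtype.ext h) (fun _ _ _ _ => Iff.rfl), Val_enum hs] at hv
  obtain ⟨T0, hT0⟩ := hv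
  have q0 : QT (gL M (L0 C)) (XC C f) T0 := by
    rw [← e]
    exact ⟨hT0.swap₁, hT0.swap₂, hT0.ne, hT0.adj, fun h1 h2 => hT0.nocross h1 h2.2,
      fun h1 h2 h3 h4 h5 h6 h7 => hT0.some h1 h2 h3 h4 h5 h6 h7.2, hT0.notboth, hT0.trans, hT0.ferrers⟩
  obtain ⟨T, q, hN⟩ := norm_all h q0
  have qf : QF (gL M (L0 C)) (XC C f) T := by
    have q' : QT (gL M (L0 C)) (Cross s) T := by
      have h4 : ∀ {a b c d}, T a b c d → (gL M (L0 C)).Adj a c ∧ (gL M (L0 C)).Adj a d ∧ (gL M (L0 C)).Adj b c ∧ (gL M (L0 C)).Adj b d :=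
        fun k => ⟨q.adj k, q.adj (q.swap₂ (q.swap₁ (q.swap₂ k))), q.adj (q.swap₁ k), q.adj (q.swap₁ (q.swap₂ (q.swap₁ (q.swap₂ k))))⟩
      refine ⟨q.swap₁, q.swap₂, q.ne, q.adj, fun {a b c d} k1 k2 => ?_, fun {a b c d} k1 k2 k3 k4 k5 k6 k7 => ?_, q.notboth, q.trans, q.ferrers⟩
      · have k := h4 k1
        refine q.nocross k1 ?_
        rw [← e]
        exact ⟨⟨q.ne k1, k.1.ne, k.2.1.ne, k.2.2.1.ne, k.2.2.2.ne, q.ne (q.swap₂ k1)⟩, k2⟩
      · refine q.some k1 k2 k3 k4 k5 k6 ?_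
        rw [← e]
        exact ⟨⟨k1.ne, k3, k4, k5.symm, k6, k2.ne⟩, k7⟩
    have := qf_of_qt hs q'
    rw [e] at this
    exact this
  refine ⟨T, ⟨⟨fun _ _ _ _ => q.swap₁, fun _ _ _ _ => q.swap₂, fun _ _ _ _ => q.ne, fun _ _ _ _ => q.adj, fun _ _ _ _ => q.nocross,
    fun _ _ _ _ => q.some, fun _ _ _ _ => q.notboth⟩, ⟨fun _ _ _ _ _ _ => q.trans, fun _ _ _ _ _ _ _ => q.ferrers⟩,
    fun _ _ _ _ _ k _ => qf.k5 k, ?_, ?_, ?_⟩⟩
  · intro c c' x y z _ _ _ _ _ hE _ _ _ hk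
    have n := hk.1.ne
    exact (nf_vals h q hN ((ec_pt h n).1 hE) n).2.1 hk
  · intro a b c d _ _ _ _ k
    have k' : UC C (u1a M C F false) a b c d ∨ UC C (u1b M C F) a b c d := List.mem_append.1 k
    rcases k' with k | k
    · obtain ⟨⟨h1, h2⟩, h3, h4⟩ := (mem_u1a h).1 k
      exact ((nf_vals h q hN h1 h2).1 h3).2 h4
    · obtain ⟨y, ⟨h1, h2⟩, h3, h4, h5⟩ := (mem_u1b h).1 k
      exact (nf_vals h q hN h1 h2).2.2 h3 h4 h5
  · intro a b c d _ _ _ _ k ht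
    obtain ⟨⟨h1, h2⟩, h3, h4⟩ := (mem_u1a h).1 k
    have := ((nf_vals h q hN h1 h2).1 h3).1 ht
    rw [h4] at this
    cases this

/-- THE CONDITION FOR COMPLETE GRAPHS ON FIVE VERTICES -/
theorem star_k5 (h : Star M C F) {f : ℕ → Bool} {T : Mem (L0 C) → Mem (L0 C) → Mem (L0 C) → Mem (L0 C) → Prop}
    (q : QC M C (prm M C F) f T) : Qk5 (gL M (L0 C)) (XC C f) T := by
  have hX := YF_sepr h.ok f
  have t1 : ∀ {a b c d}, T a b c d → T b a c d := fun k => q.b.swap₁ trivial trivial trivial trivial k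
  have t2 : ∀ {a b c d}, T a b c d → T c d a b := fun k => q.b.swap₂ trivial trivial trivial trivial k
  have vA : ∀ {x y a b : Mem (L0 C)}, pt F x = y → x ≠ y → K4 (gL M (L0 C)) x y a b → (T x y a b ↔ sepB M C x.1 y.1 a.1 b.1 = false) := by
    intro x y a b e n k
    constructor
    · intro ht
      by_contra g
      rw [Bool.not_eq_false] at g
      exact q.u.un0 trivial trivial trivial trivial ((mem_u1a h).2 ⟨⟨e, n⟩, k, g⟩) ht
    · intro g
      exact q.u.un1 trivial trivial trivial trivial (List.mem_append.2 (Or.inl ((mem_u1a h).2 ⟨⟨e, n⟩, k, g⟩)))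
  have main : KM (gL M (L0 C)) (XC C f) T (fun a b => pt F a = b ∧ a ≠ b) := by
    have k4ab : ∀ {s p a b c : Mem (L0 C)}, K5 (gL M (L0 C)) s p a b c → K4 (gL M (L0 C)) s p a b := fun k =>
      ⟨k.1, k.2.1, k.2.2.1, k.2.2.2.2.1, k.2.2.2.2.2.1, k.2.2.2.2.2.2.2.1⟩
    have k4ac : ∀ {s p a b c : Mem (L0 C)}, K5 (gL M (L0 C)) s p a b c → K4 (gL M (L0 C)) s p a c := fun k =>
      ⟨k.1, k.2.1, k.2.2.2.1, k.2.2.2.2.1, k.2.2.2.2.2.2.1, k.2.2.2.2.2.2.2.2.1⟩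
    have k4bc : ∀ {s p a b c : Mem (L0 C)}, K5 (gL M (L0 C)) s p a b c → K4 (gL M (L0 C)) s p b c := fun k =>
      ⟨k.1, k.2.2.1, k.2.2.2.1, k.2.2.2.2.2.1, k.2.2.2.2.2.2.1, k.2.2.2.2.2.2.2.2.2⟩
    refine
      { t1 := t1
        t2 := t2
        ms := ?_
        m1 := fun h1 h2 => h1.1.symm.trans h2.1
        cons := ?_
        nc := fun k => q.b.nocross trivial trivial trivial trivial k
        nb := ?_
        some := fun h1 h2 h3 h4 h5 h6 h7 => q.b.some trivial trivial trivial trivial h1 h2 h3 h4 h5 h6 h7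
        z1 := ?_
        z2 := ?_
        z3 := ?_
        b := ?_
        c := ?_
        k5 := ?_ }
    · rintro a b ⟨rfl, h2⟩
      exact ⟨pt_inv h a, h2.symm⟩
    · rintro a b c d ⟨rfl, -⟩
      exact (ptn_f h f).cons _ _ _
    · intro a b c d k1 k2
      exact q.b.notboth trivial trivial trivial trivial (t2 (t1 (t2 k1))) k2
    · rintro s p a b c ⟨e, n⟩ k h1 h2
      rw [vA e n (k4ab k)] at h1
      rw [vA e n (k4bc k)] at h2
      rw [vA e n (k4ac k)]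
      obtain ⟨s', p', w1, w2, w3, -, w4⟩ := pair_of h e n
      rcases w4 with w4 | w4
      · exact (nok w4 w1 k.2.1 k.2.2.2.2.1).elim
      have ha := k_u2 h w4 w1 k.2.1 k.2.2.2.2.1
      have hb := k_u2 h w4 w1 k.2.2.1 k.2.2.2.2.2.1
      have hc := k_u2 h w4 w1 k.2.2.2.1 k.2.2.2.2.2.2.1
      by_contra g
      rw [Bool.not_eq_false, sepB_sp h w4 w1 ha hc f] at g
      rcases sp1 hX hb k.2.2.2.2.2.2.2.1.ne k.2.2.2.2.2.2.2.2.2.ne g with r | r
      · rw [← sepB_sp h w4 w1 ha hb f, h1] at r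
        cases r
      · rw [← sepB_sp h w4 w1 hb hc f, h2] at r
        cases r
    · rintro s p a b c ⟨e, n⟩ k
      rw [vA e n (k4ab k), vA e n (k4ac k), vA e n (k4bc k)]
      obtain ⟨s', p', w1, w2, w3, -, w4⟩ := pair_of h e n
      rcases w4 with w4 | w4
      · exact (nok w4 w1 k.2.1 k.2.2.2.2.1).elim
      have ha := k_u2 h w4 w1 k.2.1 k.2.2.2.2.1
      have hb := k_u2 h w4 w1 k.2.2.1 k.2.2.2.2.2.1
      have hc := k_u2 h w4 w1 k.2.2.2.1 k.2.2.2.2.2.2.1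
      by_contra g
      rw [not_or, not_or, Bool.not_eq_false, Bool.not_eq_false, Bool.not_eq_false] at g
      exact sp2 hX (w4.ty f) ha hb hc ((sepB_sp h w4 w1 ha hb f).1 g.1) ((sepB_sp h w4 w1 ha hc f).1 g.2.1)
        ((sepB_sp h w4 w1 hb hc f).1 g.2.2)
    · rintro s p a b c ⟨e, n⟩ k h1 h2
      rw [vA e n (k4ab k), Bool.not_eq_false] at h1
      rw [vA e n (k4ac k), Bool.not_eq_false] at h2
      obtain ⟨s', p', w1, w2, w3, -, w4⟩ := pair_of h e n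
      rcases w4 with w4 | w4
      · exact (nok w4 w1 k.2.1 k.2.2.2.2.1).elim
      have ha := k_u2 h w4 w1 k.2.1 k.2.2.2.2.1
      have hb := k_u2 h w4 w1 k.2.2.1 k.2.2.2.2.2.1
      have hc := k_u2 h w4 w1 k.2.2.2.1 k.2.2.2.2.2.2.1
      have g := sp3 hX (w4.ty f) ha hb hc ((sepB_sp h w4 w1 ha hb f).1 h1) ((sepB_sp h w4 w1 ha hc f).1 h2)
      rcases w1 with ⟨rfl, rfl⟩ | ⟨rfl, rfl⟩
      · exact g
      · intro g'
        apply g
        have hp := w4.pr f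
        rcases hX.add2 (hX.comm g') ha.2.ne hp.adj.ne.symm hb.2.ne hc.2.ne with r | r
        · exact hX.swap (hX.comm r)
        · exact absurd (hX.swap (hX.comm r)) (hp.cons _ _)
    · rintro s p a b c ⟨e, n⟩ k h1
      have hE : EC C F s p := (ec_pt h n).2 e
      have hne : ∀ {a : Mem (L0 C)}, (gL M (L0 C)).Adj s a → (gL M (L0 C)).Adj p a → ¬ EC C F s a := by
        intro a g1 g2 g3
        exact g2.ne (e.symm.trans ((ec_pt h g1.ne).1 g3))
      exact q.n trivial trivial trivial trivial trivial hE (hne k.2.1 k.2.2.2.2.1) (hne k.2.2.1 k.2.2.2.2.2.1)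
        (hne k.2.2.2.1 k.2.2.2.2.2.2.1) k h1
    · rintro s p a b c ⟨e, n⟩ k h1 h2
      rw [vA e n (k4ab k), Bool.not_eq_false] at h1
      rw [vA e n (k4ac k), Bool.not_eq_false] at h2
      exact q.u.un1 trivial trivial trivial trivial (List.mem_append.2 (Or.inr ((mem_u1b h).2 ⟨p, ⟨e, n⟩, k, h1, h2⟩)))
    · intro a b c d x k m1 m2 m3 m4 m5 m6 m7 m8 m9 m10
      have hE : ∀ {a b : Mem (L0 C)}, a ≠ b → ¬ (pt F a = b ∧ a ≠ b) → ¬ EC C F a b :=
        fun n g g' => g ⟨(ec_pt h n).1 g', n⟩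
      obtain ⟨k0, k1, k2, k3, k4, k5, k6, k7, k8, k9⟩ := id k
      exact q.k trivial trivial trivial trivial trivial k ⟨hE k0.ne m1, hE k1.ne m2, hE k2.ne m3, hE k3.ne m4, hE k4.ne m5,
        hE k5.ne m6, hE k6.ne m7, hE k7.ne m8, hE k8.ne m9, hE k9.ne m10⟩
  intro a b c d x k g1 g2 g3
  exact k5M hX main k g1 g2 g3

end Pool.Agent.SOI
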