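import Pool.Agent.SOI.Pt
import Pool.Agent.SOY.YK
import Pool.Agent.SOY.YM

/-! Project SOI (MP_66ba69_lc), module Maj: the majority. -/

set_option autoImplicit false

namespace Pool.Agent.SOI

open Pool.Agent.SOC Pool.Agent.SOD Pool.Agent.SOS Pool.Agent.SOV Pool.Agent.SOF Pool.Agent.SOT Pool.Agent.SOK Pool.Agent.SOY
open Pool.Agent.SON Pool.Agent.RUP FP

variable {M : Mat} {C : List Cell} {F : List ℕ}

theorem ptn_f (h : Star M C F) (f : ℕ → Bool) : SOX.Ptn (XC C f) (pt F) := by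
  rw [xc_fl h f]
  exact SOX.ptn_fl (ptn h) (dst_cst h f)

/-- the pair `a, c` -/
theorem both (h : Star M C F) {a b c d : Mem (L0 C)} (n1 : a ≠ b) (n2 : a ≠ c) (n3 : a ≠ d) (n4 : b ≠ c) (n5 : b ≠ d) (n6 : c ≠ d)
    (e : pt F a = c) : (∃ f, XC C f a b c d) ∧ ∃ f, ¬ XC C f a b c d := by
  subst e
  have hP := ptn h
  by_cases hb : pt F b = d
  · subst hb
    have hm := pt_mark h ((pt_ne h).1 n2.symm)
    have hce : ceN C b.1 ≠ ceN C a.1 := fun k => (hm.2.2.2 b k).elim (fun k => n1 k.symm) fun k => n4 k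
    have key : ∀ f, XC C f a b (pt F a) (pt F b) ↔ (XC C (fun _ => false) a b (pt F a) (pt F b) ↔ f (ceN C a.1) = f (ceN C b.1)) := by
      intro f
      rw [xc_fl h f]
      exact SOX.fl_pr2 hP (dst_cst h f) n2.symm n5.symm n1 n4.symm
    by_cases hx : XC C (fun _ => false) a b (pt F a) (pt F b)
    · refine ⟨⟨_, hx⟩, ⟨fun i => decide (i = ceN C a.1), ?_⟩⟩
      rw [key]
      simp [hx, hce]
    · refine ⟨⟨fun i => decide (i = ceN C a.1), ?_⟩, ⟨_, hx⟩⟩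
      rw [key]
      simp [hx, hce]
  · have key : ∀ f, XC C f a b (pt F a) d ↔ (XC C (fun _ => false) a b (pt F a) d ↔ f (ceN C a.1) = false) := by
      intro f
      rw [xc_fl h f]
      exact SOX.fl_pr hP (dst_cst h f) n2.symm n1 n3 n4.symm n6 n5 hb
    by_cases hx : XC C (fun _ => false) a b (pt F a) d
    · refine ⟨⟨_, hx⟩, ⟨fun _ => true, ?_⟩⟩
      rw [key]
      simp [hx]
    · refine ⟨⟨fun _ => true, ?_⟩, ⟨_, hx⟩⟩
      rw [key]
      simp [hx]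

theorem pc_pt1 (h : Star M C F) {a b c d : Mem (L0 C)} (n1 : a ≠ b) (n2 : a ≠ c) (n3 : a ≠ d) (n4 : b ≠ c) (n5 : b ≠ d) (n6 : c ≠ d)
    (e : pt F a = b) : PC C a b c d := by
  obtain ⟨h1, h2⟩ := both h n2 n1 n3 n4.symm n6 n5 e
  refine pc_iff.2 ⟨fun f hx => ?_, h1, h2⟩
  subst e
  exact (ptn_f h f).cons _ _ _ hx

/-- designated pairings contain a pair -/
theorem pc_pt (h : Star M C F) {a b c d : Mem (L0 C)} (n1 : a ≠ b) (n2 : a ≠ c) (n3 : a ≠ d) (n4 : b ≠ c) (n5 : b ≠ d) (n6 : c ≠ d) :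
    PC C a b c d ↔ (pt F a = b ∨ pt F c = d) := by
  have sw : ∀ {f : ℕ → Bool} {a b c d : Mem (L0 C)}, XC C f a b c d → XC C f a b d c := fun {f} {a b c d} hx => YF_sw (YF_sepr h.ok f) hx
  constructor
  · intro k
    by_contra hn
    rw [not_or] at hn
    obtain ⟨h1, ⟨f, hf⟩, ⟨g, hg⟩⟩ := pc_iff.1 k
    by_cases e1 : pt F a = c
    · subst e1
      exact (ptn_f h f).cons _ _ _ hf
    by_cases e2 : pt F b = d
    · subst e2
      exact (ptn_f h f).cons _ _ _ ((YF_sepr h.ok f).comm hf)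
    by_cases e3 : pt F a = d
    · obtain ⟨⟨f', hf'⟩, -⟩ := both h n1 n3 n2 n5 n4 n6.symm e3
      exact h1 f' (sw hf')
    by_cases e4 : pt F b = c
    · obtain ⟨⟨f', hf'⟩, -⟩ := both h n1.symm n4 n5 n2 n3 n6 e4
      exact h1 f' ((YF_sepr h.ok f').swap hf')
    · have np : SOX.NP (pt F) a c b d :=
        ⟨e1, hn.1, e3, fun k => e4 (SOX.FC_ptn (ptn h) k), hn.2, e2⟩
      have key : ∀ f, XC C f a c b d ↔ XC C (fun _ => false) a c b d := by
        intro f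
        rw [xc_fl h f]
        exact SOX.fl_np (ptn h) (dst_cst h f) np
      exact hg ((key g).2 ((key f).1 hf))
  · rintro (e | e)
    · exact pc_pt1 h n1 n2 n3 n4 n5 n6 e
    · exact (flp h.ok (F := F) (fun i hi hne => by
        by_contra hF
        exact hne (h.pl i hi hF))).sw2 (pc_pt1 h n6 n2.symm n4.symm n3.symm n5.symm n1 e)

/-- the two notions of structures -/
theorem dec_iff (h : Star M C F) {G : SimpleGraph (Mem (L0 C))} {f : ℕ → Bool}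
    {t : Mem (L0 C) → Mem (L0 C) → Mem (L0 C) → Mem (L0 C) → Prop} {a b c d : Mem (L0 C)} :
    SOY.Dec G (XC C f) (PC C) t a b c d ↔ SOX.Dec G (XC C fun _ => false) (pt F) (Dst C f) t a b c d := by
  have p1 : K4 G a b c d → (PC C a b c d ↔ (pt F a = b ∨ pt F c = d)) := fun k =>
    pc_pt h k.1.ne k.2.1.ne k.2.2.1.ne k.2.2.2.1.ne k.2.2.2.2.1.ne k.2.2.2.2.2.ne
  have p2 : K4 G a b c d → (PC C a c b d ↔ (pt F a = c ∨ pt F b = d)) := fun k =>
    pc_pt h k.2.1.ne k.1.ne k.2.2.1.ne k.2.2.2.1.ne.symm k.2.2.2.2.2.ne k.2.2.2.2.1.ne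
  have p3 : K4 G a b c d → (PC C a d b c ↔ (pt F a = d ∨ pt F b = c)) := fun k =>
    pc_pt h k.2.2.1.ne k.1.ne k.2.1.ne k.2.2.2.2.1.ne.symm k.2.2.2.2.2.ne.symm k.2.2.2.1.ne
  constructor
  · intro k
    refine ⟨k.ab, k.cd, k.sq, ?_, fun q r => k.one q ((p1 q).2 r), fun q r => k.two q ((p2 q).2 r), fun q r => k.thr q ((p3 q).2 r), ?_⟩
    · rw [← xc_fl h f]
      exact k.nc
    · intro q np
      exact k.non q (fun e => ((p1 q).1 e).elim np.1 np.2.2.2.2.2) (fun e => ((p2 q).1 e).elim np.2.1 np.2.2.2.2.1)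
        (fun e => ((p3 q).1 e).elim np.2.2.1 np.2.2.2.1)
  · intro k
    refine ⟨k.ab, k.cd, k.sq, ?_, fun q r => k.one q ((p1 q).1 r), fun q r => k.two q ((p2 q).1 r), fun q r => k.thr q ((p3 q).1 r), ?_⟩
    · rw [xc_fl h f]
      exact k.nc
    · intro q n1 n2 n3
      refine k.non q ⟨fun e => n1 ((p1 q).2 (Or.inl e)), fun e => n2 ((p2 q).2 (Or.inl e)), fun e => n3 ((p3 q).2 (Or.inl e)),
        fun e => n3 ((p3 q).2 (Or.inr e)), fun e => n2 ((p2 q).2 (Or.inr e)), fun e => n1 ((p1 q).2 (Or.inr e))⟩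

theorem dec_eq (h : Star M C F) {G : SimpleGraph (Mem (L0 C))} {f : ℕ → Bool}
    {t : Mem (L0 C) → Mem (L0 C) → Mem (L0 C) → Mem (L0 C) → Prop} :
    SOY.Dec G (XC C f) (PC C) t = SOX.Dec G (XC C fun _ => false) (pt F) (Dst C f) t := by
  funext a b c d
  exact propext (dec_iff h)

/-- the facts about the pairs -/
theorem prF (h : Star M C F) : SOX.PrF (gL M (L0 C)) (pt F) where
  adj := fun x hx => (pt_mark h ((pt_ne h).1 hx)).2.2.1
  bi := by
    intro x y hx hy h1 h2 e1 e2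
    have hi := (pt_ne h).1 hx
    have hj := (pt_ne h).1 hy
    have hm := pt_mark h hi
    have hne : ceN C y.1 ≠ ceN C x.1 := fun k => (hm.2.2.2 y k).elim h1 h2
    have hb := h.bic _ hi (ceN C y.1) (h.lt _ hj) hne
    have m : ∀ z : Mem (L0 C), z.1 ∈ cst C (ceN C z.1) false := fun z => (ce_mem h.ok z.2).2 false
    have m1 := m (pt F x)
    have m2 := m (pt F y)
    rw [pt_ce h] at m1 m2
    exact hb _ (m x) _ m1 _ (m y) _ m2 e1 e2

theorem qs_of (h : Star M C F) {G : SimpleGraph (Mem (L0 C))} {f : ℕ → Bool} {T : Mem (L0 C) → Mem (L0 C) → Mem (L0 C) → Mem (L0 C) → Prop}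
    {S : Mem (L0 C) → Prop} {l : List (Mem (L0 C))} (hl : ∀ x ∈ l, S x) (hk : K5F G l) (hb : Qb G (XC C f) T S) (ht : Qt G T S) :
    SOX.QS G (SOX.fl (XC C fun _ => false) (pt F) (Dst C f)) T (fun x => x ∈ l) where
  swap₁ := fun a b c d => hb.swap₁ (hl _ a) (hl _ b) (hl _ c) (hl _ d)
  swap₂ := fun a b c d => hb.swap₂ (hl _ a) (hl _ b) (hl _ c) (hl _ d)
  ne := fun a b c d => hb.ne (hl _ a) (hl _ b) (hl _ c) (hl _ d)
  adj := fun a b c d => hb.adj (hl _ a) (hl _ b) (hl _ c) (hl _ d)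
  nocross := fun a b c d k => by
    rw [← xc_fl h f]
    exact hb.nocross (hl _ a) (hl _ b) (hl _ c) (hl _ d) k
  some := fun a b c d => by
    rw [← xc_fl h f]
    exact hb.some (hl _ a) (hl _ b) (hl _ c) (hl _ d)
  notboth := fun a b c d => hb.notboth (hl _ a) (hl _ b) (hl _ c) (hl _ d)
  trans := fun a b c d e => ht.trans (hl _ a) (hl _ b) (hl _ c) (hl _ d) (hl _ e)
  ferrers := fun a b c d e f => ht.ferrers (hl _ a) (hl _ b) (hl _ c) (hl _ d) (hl _ e) (hl _ f)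
  k5 := fun a b c d e k => absurd k (hk _ a _ b _ c _ d _ e)

theorem star_maj {Q : Prm} (h : Star M C F) (hQ : POk C Q) : MajY M C Q := by
  intro S hS f g k hf hg hk
  have hSL : ∀ x ∈ S, x ∈ L0 C := fun x hx => (SOX.mem_six.mp hS).2.2 x hx
  refine lvC_maj h.ok hQ hSL hf hg hk ?_
  have qf := ((lvC_iff h.ok hQ hSL).1 hf).1
  have qg := ((lvC_iff h.ok hQ hSL).1 hg).1
  have qk := ((lvC_iff h.ok hQ hSL).1 hk).1
  rw [dec_eq h] at qf qg qk
  rw [dec_eq h]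
  let Y : SOX.MSy (Mem (L0 C)) := ⟨gL M (L0 C), XC C fun _ => false, pt F, Dst C f, Dst C g, Dst C k, TC M C f, TC M C g, TC M C k,
    ptn h, dst_cst h f, dst_cst h g, dst_cst h k, sy_C f, sy_C g, sy_C k⟩
  have e4 : SOX.Dec (gL M (L0 C)) (XC C fun _ => false) (pt F) (Dst C (mD f g k)) (mT (TC M C f) (TC M C g) (TC M C k)) = Y.T4 := rfl
  rw [e4]
  have P := prF h
  have q1 : ∀ {l : List (Mem (L0 C))}, (∀ x ∈ l, x.1 ∈ S) → K5F (gL M (L0 C)) l → SOX.QS Y.G Y.X1 Y.T1 (fun x => x ∈ l) :=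
    fun hl h5 => qs_of h hl h5 qf.b qf.t
  have q2 : ∀ {l : List (Mem (L0 C))}, (∀ x ∈ l, x.1 ∈ S) → K5F (gL M (L0 C)) l → SOX.QS Y.G Y.X2 Y.T2 (fun x => x ∈ l) :=
    fun hl h5 => qs_of h hl h5 qg.b qg.t
  have q3 : ∀ {l : List (Mem (L0 C))}, (∀ x ∈ l, x.1 ∈ S) → K5F (gL M (L0 C)) l → SOX.QS Y.G Y.X3 Y.T3 (fun x => x ∈ l) :=
    fun hl h5 => qs_of h hl h5 qk.b qk.t
  constructor
  · intro u w x y z hu hw hx hy hz h5 h1 h2 h3
    have hl := SOX.mem5 (P := fun x : Mem (L0 C) => x.1 ∈ S) hu hw hx hy hz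
    exact SOX.maj_tr (Y := Y) P (q1 hl h5) (q2 hl h5) (q3 hl h5) (by simp) (by simp) (by simp) (by simp) (by simp) h5 h1 h2 h3
  · intro a b x y x' y' ha hb hx hy hx' hy' h5 h1 h2
    have hl := SOX.mem6 (P := fun x : Mem (L0 C) => x.1 ∈ S) ha hb hx hy hx' hy'
    exact SOX.maj_fe (Y := Y) P (q1 hl h5) (q2 hl h5) (q3 hl h5) (by simp) (by simp) (by simp) (by simp) (by simp) (by simp) h5 h1 h2

end Pool.Agent.SOI
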