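import Pool.Agent.SOI.Defs
import Pool.Agent.SOX.QMain
import Pool.Agent.SOY.YF

/-! Project SOI (MP_66ba69_lc), module Pt: the partner function; the orders of the cells are the orders with exchanged pairs. -/

set_option autoImplicit false

namespace Pool.Agent.SOI

open Pool.Agent.SOC Pool.Agent.SOD Pool.Agent.SOS Pool.Agent.SOV Pool.Agent.SOF Pool.Agent.SOT Pool.Agent.SOK Pool.Agent.SOY
open Pool.Agent.SON Pool.Agent.RUP FP

variable {M : Mat} {C : List Cell} {F : List ℕ}

theorem ec_iff {a b : Mem (L0 C)} : EC C F a b ↔ ceN C a.1 = ceN C b.1 ∧ ceN C a.1 ∈ F := by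
  unfold EC eB
  rw [Bool.and_eq_true, decide_eq_true_eq, decide_eq_true_eq]

open Classical in
/-- the partner -/
noncomputable def pt (F : List ℕ) (a : Mem (L0 C)) : Mem (L0 C) := if h : ∃ b : Mem (L0 C), b ≠ a ∧ EC C F a b then h.choose else a

/-- the cell of a point in a marked cell -/
theorem st_two (h : Star M C F) {a : Mem (L0 C)} (hi : ceN C a.1 ∈ F) : ∃ b : Mem (L0 C), b ≠ a ∧ ceN C b.1 = ceN C a.1 ∧
    adjB M a.1 b.1 = true ∧ ∀ c : Mem (L0 C), ceN C c.1 = ceN C a.1 → c = a ∨ c = b := by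
  obtain ⟨x, y, e, hxy, ha⟩ := h.pr _ hi
  have hl := h.lt _ hi
  have e0 : cst C (ceN C a.1) false = [x, y] := by
    unfold cst
    rw [e]
    rfl
  have hm : ∀ z, z = x ∨ z = y → z ∈ cst C (ceN C a.1) false := by
    intro z hz
    rw [e0]
    rcases hz with rfl | rfl <;> simp
  have hin : ∀ z, z = x ∨ z = y → z ∈ L0 C := fun z hz => List.mem_flatMap.2 ⟨ceN C a.1, List.mem_range.2 hl, hm z hz⟩
  have hce : ∀ z, z = x ∨ z = y → ceN C z = ceN C a.1 := fun z hz => ce_eq h.ok hl (hm z hz)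
  have hc : ∀ c : Mem (L0 C), ceN C c.1 = ceN C a.1 → c.1 = x ∨ c.1 = y := by
    intro c hc
    have := (ce_mem h.ok c.2).2 false
    rw [hc, e0] at this
    simpa using this
  rcases hc a rfl with h1 | h1
  · refine ⟨⟨y, hin y (Or.inr rfl)⟩, fun k => hxy (h1.symm.trans (congrArg Subtype.val k).symm), hce y (Or.inr rfl), h1 ▸ ha, fun c hc' => ?_⟩
    rcases hc c hc' with h2 | h2
    · exact Or.inl (Subtype.ext (h2.trans h1.symm))
    · exact Or.inr (Subtype.ext h2)
  · refine ⟨⟨x, hin x (Or.inl rfl)⟩, fun k => hxy ((congrArg Subtype.val k).trans h1), hce x (Or.inl rfl), ?_, fun c hc' => ?_⟩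
    · have : (gN M).Adj x y := ha
      rw [h1]
      exact this.symm
    rcases hc c hc' with h2 | h2
    · exact Or.inr (Subtype.ext h2)
    · exact Or.inl (Subtype.ext (h2.trans h1.symm))

theorem pt_mark (h : Star M C F) {a : Mem (L0 C)} (hi : ceN C a.1 ∈ F) : pt F a ≠ a ∧ ceN C (pt F a).1 = ceN C a.1 ∧
    adjB M a.1 (pt F a).1 = true ∧ ∀ c : Mem (L0 C), ceN C c.1 = ceN C a.1 → c = a ∨ c = pt F a := by
  obtain ⟨b, h1, h2, h3, h4⟩ := st_two h hi
  have hx : ∃ b : Mem (L0 C), b ≠ a ∧ EC C F a b := ⟨b, h1, ec_iff.2 ⟨h2.symm, hi⟩⟩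
  have e : pt F a = hx.choose := by
    unfold pt
    rw [dif_pos hx]
  have hs := hx.choose_spec
  rw [← e] at hs
  have e' : pt F a = b := (h4 _ (ec_iff.1 hs.2).1.symm).resolve_left hs.1
  rw [e']
  exact ⟨h1, h2, h3, h4⟩

theorem pt_unmark {a : Mem (L0 C)} (hi : ceN C a.1 ∉ F) : pt F a = a := by
  unfold pt
  rw [dif_neg]
  rintro ⟨b, _, hb⟩
  exact hi (ec_iff.1 hb).2

theorem pt_ce (h : Star M C F) (a : Mem (L0 C)) : ceN C (pt F a).1 = ceN C a.1 := by
  by_cases hi : ceN C a.1 ∈ F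
  · exact (pt_mark h hi).2.1
  · rw [pt_unmark hi]

theorem pt_inv (h : Star M C F) (a : Mem (L0 C)) : pt F (pt F a) = a := by
  by_cases hi : ceN C a.1 ∈ F
  · obtain ⟨h1, h2, h3, h4⟩ := pt_mark h hi
    have hi' : ceN C (pt F a).1 ∈ F := by rw [h2]; exact hi
    obtain ⟨k1, k2, k3, k4⟩ := pt_mark h hi'
    rcases h4 _ (k2.trans h2) with e | e
    · exact e
    · exact absurd e k1
  · rw [pt_unmark (a := a) hi, pt_unmark hi]

/-- points of one marked cell -/
theorem ec_pt (h : Star M C F) {a b : Mem (L0 C)} (hab : a ≠ b) : EC C F a b ↔ pt F a = b := by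
  rw [ec_iff]
  constructor
  · rintro ⟨h1, h2⟩
    exact (((pt_mark h h2).2.2.2 b h1.symm).resolve_left hab.symm).symm
  · intro e
    have hi : ceN C a.1 ∈ F := by
      by_contra hi
      exact hab ((pt_unmark hi).symm.trans e)
    subst e
    exact ⟨(pt_mark h hi).2.1.symm, hi⟩

theorem pt_ne (h : Star M C F) {a : Mem (L0 C)} : pt F a ≠ a ↔ ceN C a.1 ∈ F :=
  ⟨fun e => by
    by_contra hi
    exact e (pt_unmark hi), fun hi => (pt_mark h hi).1⟩

/-- the state of the cell -/
def Dst (C : List Cell) (f : ℕ → Bool) (a : Mem (L0 C)) : Bool := f (ceN C a.1)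

theorem dst_cst (h : Star M C F) (f : ℕ → Bool) : Pool.Agent.SOX.Cst (pt F) (Dst C f) := by
  intro a
  unfold Dst
  rw [pt_ce h]

theorem lt_fl (h : Star M C F) (f : ℕ → Bool) (a b : Mem (L0 C)) : ltC C f a.1 b.1 =
    ltC C (fun _ => false) (SOX.sg (pt F) (Dst C f) a).1 (SOX.sg (pt F) (Dst C f) b).1 := by
  have ec : ∀ a : Mem (L0 C), ceN C (SOX.sg (pt F) (Dst C f) a).1 = ceN C a.1 := by
    intro a
    unfold SOX.sg
    split
    · exact pt_ce h a
    · rfl
  unfold ltC
  rw [ec a, ec b]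
  by_cases e : ceN C a.1 = ceN C b.1
  swap
  · rw [decide_eq_false e, Bool.false_and, Bool.false_and]
  congr 1
  congr 1
  by_cases hf : f (ceN C a.1) = true
  swap
  · rw [Bool.not_eq_true] at hf
    have h1 : SOX.sg (pt F) (Dst C f) a = a := by
      unfold SOX.sg Dst
      rw [hf]
      rfl
    have h2 : SOX.sg (pt F) (Dst C f) b = b := by
      unfold SOX.sg Dst
      rw [← e, hf]
      rfl
    rw [h1, h2, hf]
  · have h1 : SOX.sg (pt F) (Dst C f) a = pt F a := by
      unfold SOX.sg Dst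
      rw [hf]
      rfl
    have h2 : SOX.sg (pt F) (Dst C f) b = pt F b := by
      unfold SOX.sg Dst
      rw [← e, hf]
      rfl
    rw [h1, h2, hf]
    by_cases hi : ceN C a.1 ∈ F
    swap
    · rw [pt_unmark hi, pt_unmark (a := b) (by rw [← e]; exact hi), h.pl _ (ce_mem h.ok a.2).1 hi]
    · obtain ⟨x, y, e1, hxy, ha⟩ := h.pr _ hi
      have e0 : cst C (ceN C a.1) false = [x, y] := by
        unfold cst
        rw [e1]
        rfl
      have e2 : cst C (ceN C a.1) true = [y, x] := by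
        unfold cst
        rw [e1]
        rfl
      have hc : ∀ c : Mem (L0 C), ceN C c.1 = ceN C a.1 → c.1 = x ∨ c.1 = y := by
        intro c hc
        have := (ce_mem h.ok c.2).2 false
        rw [hc, e0] at this
        simpa using this
      have px : ∀ c : Mem (L0 C), ceN C c.1 = ceN C a.1 → (c.1 = x ∧ (pt F c).1 = y) ∨ (c.1 = y ∧ (pt F c).1 = x) := by
        intro c k
        have hi' : ceN C c.1 ∈ F := by rw [k]; exact hi
        obtain ⟨m1, m2, -, -⟩ := pt_mark h hi'
        have m3 : (pt F c).1 ≠ c.1 := fun k => m1 (Subtype.ext k)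
        rcases hc c k with k1 | k1 <;> rcases hc (pt F c) (m2.trans k) with k2 | k2
        · exact absurd (k2.trans k1.symm) m3
        · exact Or.inl ⟨k1, k2⟩
        · exact Or.inr ⟨k1, k2⟩
        · exact absurd (k2.trans k1.symm) m3
      rw [e0, e2]
      rcases px a rfl with ⟨k1, k2⟩ | ⟨k1, k2⟩ <;> rcases px b e.symm with ⟨k3, k4⟩ | ⟨k3, k4⟩
      · rw [k1, k2, k3, k4]
        simp
      · rw [k1, k2, k3, k4]
        simp [hxy, hxy.symm]
      · rw [k1, k2, k3, k4]
        simp [hxy, hxy.symm]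
      · rw [k1, k2, k3, k4]
        simp

theorem sg_inj (h : Star M C F) (f : ℕ → Bool) {a b : Mem (L0 C)} :
    (SOX.sg (pt F) (Dst C f) a).1 = (SOX.sg (pt F) (Dst C f) b).1 ↔ a.1 = b.1 := by
  constructor
  · intro e
    have e := Subtype.ext e
    have k : ∀ a : Mem (L0 C), SOX.sg (pt F) (Dst C f) (SOX.sg (pt F) (Dst C f) a) = a := by
      intro a
      unfold SOX.sg
      by_cases hd : Dst C f a = true
      · rw [if_pos hd, if_pos (by rw [dst_cst h f a]; exact hd), pt_inv h]
      · rw [if_neg hd, if_neg hd]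
    rw [← k a, ← k b, e]
  · intro e
    rw [Subtype.ext e]

/-- THE ORDERS OF THE CELLS ARE THE ORDERS WITH EXCHANGED PAIRS -/
theorem xc_fl (h : Star M C F) (f : ℕ → Bool) : XC C f = SOX.fl (XC C fun _ => false) (pt F) (Dst C f) := by
  funext a b c d
  refine propext ?_
  unfold SOX.fl XC crC bwC
  have e : ∀ a b : Mem (L0 C), ltC C f a.1 b.1 = ltC C (fun _ => false) (SOX.sg (pt F) (Dst C f) a).1 (SOX.sg (pt F) (Dst C f) b).1 :=
    fun a b => lt_fl h f a b
  have n : ∀ a b : Mem (L0 C), decide (a.1 ≠ b.1) =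
      decide ((SOX.sg (pt F) (Dst C f) a).1 ≠ (SOX.sg (pt F) (Dst C f) b).1) := by
    intro a b
    rw [decide_eq_decide, not_iff_not]
    exact (sg_inj h f).symm
  rw [e a c, e c b, e b c, e c a, e a d, e d b, e b d, e d a, n a b, n a c, n a d, n b c, n b d, n c d]

theorem ptn (h : Star M C F) : SOX.Ptn (XC C fun _ => false) (pt F) where
  sep := YF_sepr h.ok _
  inv := pt_inv h
  cons := by
    intro x c d hx
    by_cases e : pt F x = x
    · rw [e] at hx
      exact ((YF_sepr h.ok _).dist hx).1 rfl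
    · have hi := (pt_ne h).1 e
      obtain ⟨x1, y1, e1, hxy, ha⟩ := h.pr _ hi
      have S := YF_sepr h.ok (fun _ => false)
      have e2 := S.dist hx
      have e3 := S.dist (S.swap hx)
      have sw := S.comm (S.swap (S.comm hx))
      have e4 := S.dist sw
      have e5 := S.dist (S.swap sw)
      have m := pt_mark h hi
      have nc : ∀ c : Mem (L0 C), x ≠ c → pt F x ≠ c → ceN C x.1 ≠ ceN C c.1 := by
        intro c h1 h2 h3
        rcases m.2.2.2 c h3.symm with k | k
        · exact h1 k.symm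
        · exact h2 k.symm
      have nc1 := nc c e2.2 e3.2
      have nc2 := nc d e4.2 e5.2
      have q : ∀ c : Mem (L0 C), ceN C x.1 ≠ ceN C c.1 → bwC C (fun _ => false) x.1 (pt F x).1 c.1 = false := by
        intro c hc
        unfold bwC ltC
        rw [m.2.1, decide_eq_false hc, decide_eq_false (show ¬ ceN C c.1 = ceN C x.1 from fun k => hc k.symm)]
        by_cases k : ceN C x.1 < ceN C c.1
        · rw [decide_eq_false (show ¬ ceN C c.1 < ceN C x.1 by omega)]
          simp
        · rw [decide_eq_false k]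
          simp
      unfold XC crC at hx
      rw [q c nc1, q d nc2] at hx
      simp at hx

end Pool.Agent.SOI
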