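import Pool.Agent.SOI.Cls
import Pool.Agent.SOJ.K5M

/-! Project SOI (MP_66ba69_lc), module Sep: separated points; the parameters are admissible. -/

set_option autoImplicit false

namespace Pool.Agent.SOI

open Pool.Agent.SOC Pool.Agent.SOD Pool.Agent.SOS Pool.Agent.SOV Pool.Agent.SOF Pool.Agent.SOT Pool.Agent.SOK Pool.Agent.SOY
open Pool.Agent.SON Pool.Agent.RUP Pool.Agent.SOJ FP

variable {M : Mat} {C : List Cell} {F : List ℕ}

theorem sepB_iff {x y a b : Mem (L0 C)} : sepB M C x.1 y.1 a.1 b.1 = true ↔ ∃ g : Mem (L0 C), g ≠ x ∧ g ≠ y ∧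
    ((gL M (L0 C)).Adj g x ↔ ¬ (gL M (L0 C)).Adj g y) ∧ XC C (fun _ => false) a b g x := by
  unfold sepB
  rw [List.any_eq_true]
  have key : ∀ g : Mem (L0 C), xor (adjB M g.1 x.1) (adjB M g.1 y.1) = true ↔ ((gL M (L0 C)).Adj g x ↔ ¬ (gL M (L0 C)).Adj g y) := by
    intro g
    have e1 : (gL M (L0 C)).Adj g x ↔ adjB M g.1 x.1 = true := Iff.rfl
    have e2 : (gL M (L0 C)).Adj g y ↔ adjB M g.1 y.1 = true := Iff.rfl
    rw [e1, e2]
    cases adjB M g.1 x.1 <;> cases adjB M g.1 y.1 <;> simp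
  constructor
  · rintro ⟨g, hg, k⟩
    rw [Bool.and_eq_true, Bool.and_eq_true, Bool.and_eq_true, decide_eq_true_eq, decide_eq_true_eq] at k
    exact ⟨⟨g, hg⟩, fun e => k.1 (congrArg Subtype.val e), fun e => k.2.1 (congrArg Subtype.val e), (key ⟨g, hg⟩).1 k.2.2.1, k.2.2.2⟩
  · rintro ⟨g, h1, h2, h3, h4⟩
    refine ⟨g.1, g.2, ?_⟩
    rw [Bool.and_eq_true, Bool.and_eq_true, Bool.and_eq_true, decide_eq_true_eq, decide_eq_true_eq]
    exact ⟨fun e => h1 (Subtype.ext e), fun e => h2 (Subtype.ext e), (key g).2 h3, h4⟩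

theorem mem_prs (h : Star M C F) {x y : Mem (L0 C)} : (x.1, y.1) ∈ prsF C F ↔ (pt F x = y ∧ x ≠ y) := by
  unfold prsF
  rw [List.mem_flatMap]
  constructor
  · rintro ⟨i, hi, k⟩
    rw [List.mem_flatMap] at k
    obtain ⟨x', hx, k⟩ := k
    rw [List.mem_map] at k
    obtain ⟨y', hy, k⟩ := k
    rw [List.mem_filter, decide_eq_true_eq] at hy
    obtain ⟨rfl, rfl⟩ := Prod.mk.inj k
    have hl := h.lt i hi
    have c1 := ce_eq h.ok hl hx
    have c2 := ce_eq h.ok hl hy.1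
    have hn : x ≠ y := fun e => hy.2 (congrArg Subtype.val e)
    exact ⟨(ec_pt h hn).1 (ec_iff.2 ⟨c1.trans c2.symm, by rw [c1]; exact hi⟩), hn⟩
  · rintro ⟨e, hn⟩
    have := ec_iff.1 ((ec_pt h hn).2 e)
    refine ⟨_, this.2, ?_⟩
    rw [List.mem_flatMap]
    refine ⟨x.1, (ce_mem h.ok x.2).2 false, ?_⟩
    rw [List.mem_map]
    refine ⟨y.1, ?_, rfl⟩
    rw [List.mem_filter, decide_eq_true_eq]
    refine ⟨?_, fun e => hn (Subtype.ext e)⟩
    rw [this.1]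
    exact (ce_mem h.ok y.2).2 false

theorem mem_u1a (h : Star M C F) {t : Bool} {x y a b : Mem (L0 C)} : UC C (u1a M C F t) x y a b ↔
    ((pt F x = y ∧ x ≠ y) ∧ K4 (gL M (L0 C)) x y a b ∧ sepB M C x.1 y.1 a.1 b.1 = t) := by
  unfold UC u1a
  rw [List.mem_flatMap]
  constructor
  · rintro ⟨p, hp, k⟩
    rw [List.mem_flatMap] at k
    obtain ⟨a', ha, k⟩ := k
    rw [List.mem_map] at k
    obtain ⟨b', hb, k⟩ := k
    rw [List.mem_filter, Bool.and_eq_true, decide_eq_true_eq] at hb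
    have e1 := (Prod.mk.inj k).1
    obtain ⟨e2, k⟩ := Prod.mk.inj (Prod.mk.inj k).2
    obtain ⟨rfl, rfl⟩ := Prod.mk.inj k
    obtain ⟨p1, p2⟩ := p
    simp only at e1 e2
    subst e1 e2
    exact ⟨(mem_prs h).1 hp, k4B_iff.1 hb.2.1, hb.2.2⟩
  · rintro ⟨h1, h2, h3⟩
    refine ⟨(x.1, y.1), (mem_prs h).2 h1, ?_⟩
    rw [List.mem_flatMap]
    refine ⟨a.1, a.2, ?_⟩
    rw [List.mem_map]
    refine ⟨b.1, ?_, rfl⟩
    rw [List.mem_filter, Bool.and_eq_true, decide_eq_true_eq]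
    exact ⟨b.2, k4B_iff.2 h2, h3⟩

theorem mem_u1b (h : Star M C F) {x a b c : Mem (L0 C)} : UC C (u1b M C F) x a b c ↔
    ∃ y : Mem (L0 C), (pt F x = y ∧ x ≠ y) ∧ K5 (gL M (L0 C)) x y a b c ∧ sepB M C x.1 y.1 a.1 b.1 = true ∧ sepB M C x.1 y.1 a.1 c.1 = true := by
  unfold UC u1b
  rw [List.mem_flatMap]
  constructor
  · rintro ⟨p, hp, k⟩
    rw [List.mem_flatMap] at k
    obtain ⟨a', ha, k⟩ := k
    rw [List.mem_flatMap] at k
    obtain ⟨b', hb, k⟩ := k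
    rw [List.mem_map] at k
    obtain ⟨c', hc, k⟩ := k
    rw [List.mem_filter, Bool.and_eq_true, Bool.and_eq_true] at hc
    have e1 := (Prod.mk.inj k).1
    obtain ⟨e2, k⟩ := Prod.mk.inj (Prod.mk.inj k).2
    obtain ⟨rfl, rfl⟩ := Prod.mk.inj k
    obtain ⟨p1, p2⟩ := p
    simp only at e1 e2
    subst e1 e2
    have hp2 : p2 ∈ L0 C := by
      unfold prsF at hp
      rw [List.mem_flatMap] at hp
      obtain ⟨i, hi, k⟩ := hp
      rw [List.mem_flatMap] at k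
      obtain ⟨x', hx, k⟩ := k
      rw [List.mem_map] at k
      obtain ⟨y', hy, k⟩ := k
      rw [List.mem_filter] at hy
      rw [← (Prod.mk.inj k).2]
      exact List.mem_flatMap.2 ⟨i, List.mem_range.2 (h.lt i hi), hy.1⟩
    refine ⟨⟨p2, hp2⟩, (mem_prs h).1 hp, k5B_iff.1 hc.2.1, hc.2.2.1, hc.2.2.2⟩
  · rintro ⟨y, h1, h2, h3, h4⟩
    refine ⟨(x.1, y.1), (mem_prs h).2 h1, ?_⟩
    rw [List.mem_flatMap]
    refine ⟨a.1, a.2, ?_⟩
    rw [List.mem_flatMap]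
    refine ⟨b.1, b.2, ?_⟩
    rw [List.mem_map]
    refine ⟨c.1, ?_, rfl⟩
    rw [List.mem_filter, Bool.and_eq_true, Bool.and_eq_true]
    exact ⟨c.2, k5B_iff.2 h2, h3, h4⟩

/-- THE PARAMETERS ARE ADMISSIBLE -/
theorem star_pok (h : Star M C F) : POk C (prm M C F) where
  mark := fun i hi hne => by
    by_contra hF
    exact hne (h.pl i hi hF)
  ex := by
    intro e he
    exact absurd he List.not_mem_nil
  u1 := by
    intro a b c d k
    have k' : UC C (u1a M C F false) a b c d ∨ UC C (u1b M C F) a b c d := List.mem_append.1 k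
    rcases k' with k | k
    · obtain ⟨⟨h1, h2⟩, h3, -⟩ := (mem_u1a h).1 k
      exact Or.inl ((pc_pt h h2 h3.2.1.ne h3.2.2.1.ne h3.2.2.2.1.ne h3.2.2.2.2.1.ne h3.2.2.2.2.2.ne).2 (Or.inl h1))
    · obtain ⟨y, ⟨h1, h2⟩, h3, h4, h5⟩ := (mem_u1b h).1 k
      obtain ⟨k0, k1, k2, k3, k4, k5, k6, k7, k8, k9⟩ := h3
      refine Or.inr ⟨fun q => ?_, fun q => ?_⟩
      · rcases (pc_pt h k2.ne k1.ne k3.ne k7.ne.symm k9.ne k8.ne).1 q with e | e
        · exact k5.ne (h1.symm.trans e)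
        · obtain ⟨g, -, -, -, hx⟩ := sepB_iff.1 h5
          exact (ptn h).cons b g a (by rw [e]; exact hx)
      · rcases (pc_pt h k3.ne k1.ne k2.ne k8.ne.symm k9.ne.symm k7.ne).1 q with e | e
        · exact k6.ne (h1.symm.trans e)
        · obtain ⟨g, -, -, -, hx⟩ := sepB_iff.1 h4
          exact (ptn h).cons b g a (by rw [e]; exact hx)
  u0 := by
    intro a b c d k
    obtain ⟨⟨h1, h2⟩, h3, -⟩ := (mem_u1a h).1 k
    exact Or.inl ((pc_pt h h2 h3.2.1.ne h3.2.2.1.ne h3.2.2.2.1.ne h3.2.2.2.2.1.ne h3.2.2.2.2.2.ne).2 (Or.inl h1))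

end Pool.Agent.SOI
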