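import Pool.Agent.SOI.Maj
import Pool.Agent.SOJ.Norm

/-! Project SOI (MP_66ba69_lc), module St: the blocks of the rest of a marked cell. -/

set_option autoImplicit false

namespace Pool.Agent.SOI

open Pool.Agent.SOC Pool.Agent.SOD Pool.Agent.SOS Pool.Agent.SOV Pool.Agent.SOF Pool.Agent.SOT Pool.Agent.SOK Pool.Agent.SOY
open Pool.Agent.SON Pool.Agent.RUP Pool.Agent.SOJ FP

variable {M : Mat} {C : List Cell} {F : List ℕ}

/-! ### positions -/

section pos
variable {V : Type} [DecidableEq V]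

theorem idx_app {A B : List V} (h : (A ++ B).Nodup) {a b : V} (ha : a ∈ A) (hb : b ∈ B) : (A ++ B).idxOf a < (A ++ B).idxOf b := by
  have hb' : b ∉ A := fun k => (List.disjoint_of_nodup_append h) k hb
  rw [List.idxOf_append_of_mem ha, List.idxOf_append_of_notMem hb']
  have := List.idxOf_lt_length_of_mem ha
  omega

/-- four lists in this order: `K` the cell, then three blocks -/
structure Blk (s K S1 S2 S3 : List V) : Prop where
  e : s = K ++ (S1 ++ (S2 ++ S3))
  nd : s.Nodup

variable {s K S1 S2 S3 : List V}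

theorem Blk.k1 (h : Blk s K S1 S2 S3) {a b : V} (ha : a ∈ K) (hb : b ∈ S1 ∨ b ∈ S2 ∨ b ∈ S3) : s.idxOf a < s.idxOf b := by
  rw [h.e]
  refine idx_app (by rw [← h.e]; exact h.nd) ha ?_
  rw [List.mem_append, List.mem_append]
  exact hb

theorem Blk.k2 (h : Blk s K S1 S2 S3) {a b : V} (ha : a ∈ S1) (hb : b ∈ S2 ∨ b ∈ S3) : s.idxOf a < s.idxOf b := by
  have e : s = (K ++ S1) ++ (S2 ++ S3) := by rw [h.e, List.append_assoc]
  rw [e]
  refine idx_app (by rw [← e]; exact h.nd) (List.mem_append_right _ ha) ?_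
  rw [List.mem_append]
  exact hb

theorem Blk.k3 (h : Blk s K S1 S2 S3) {a b : V} (ha : a ∈ S2) (hb : b ∈ S3) : s.idxOf a < s.idxOf b := by
  have e : s = (K ++ (S1 ++ S2)) ++ S3 := by rw [h.e]; simp
  rw [e]
  exact idx_app (by rw [← e]; exact h.nd) (List.mem_append_right _ (List.mem_append_right _ ha)) hb

/-- one point of the middle block separates points of the outer blocks from the cell -/
theorem Blk.x1 (h : Blk s K S1 S2 S3) {x a y z : V} (hx : x ∈ K) (ha : a ∈ S2) (hy : y ∈ S1) (hz : z ∈ S3) : CrD s y z x a := by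
  have h1 := h.k1 hx (Or.inl hy)
  have h2 := h.k2 hy (Or.inl ha)
  have h3 := h.k3 ha hz
  have ne : ∀ {p q : V}, s.idxOf p < s.idxOf q → p ≠ q := fun k e => by rw [e] at k; omega
  refine ⟨⟨ne (h2.trans h3), (ne h1).symm, ne h2, (ne (h1.trans (h2.trans h3))).symm, (ne h3).symm, ne (h1.trans h2)⟩, ?_⟩
  unfold Cross Pool.Agent.SOC.Btw
  omega

/-- points of the middle block are not separated from the cell by a point of an outer block -/
theorem Blk.x2 (h : Blk s K S1 S2 S3) {x a b f : V} (hx : x ∈ K) (ha : a ∈ S2) (hb : b ∈ S2) (hf : f ∈ S1 ∨ f ∈ S3) : ¬ CrD s a b f x := by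
  rintro ⟨-, k⟩
  apply k
  have h1 := h.k1 hx (Or.inr (Or.inl ha))
  have h2 := h.k1 hx (Or.inr (Or.inl hb))
  unfold Pool.Agent.SOC.Btw
  rcases hf with hf | hf
  · have h3 := h.k2 hf (Or.inl ha)
    have h4 := h.k2 hf (Or.inl hb)
    omega
  · have h3 := h.k3 ha hf
    have h4 := h.k3 hb hf
    omega

/-- two points of the middle block are not separated by points of the outer blocks -/
theorem Blk.x3 (h : Blk s K S1 S2 S3) {a b f c : V} (hf : f ∈ S2) (hc : c ∈ S2) (ha : a ∈ S1 ∨ a ∈ S3) (hb : b ∈ S1 ∨ b ∈ S3) :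
    ¬ CrD s a b f c := by
  rintro ⟨-, k⟩
  apply k
  unfold Pool.Agent.SOC.Btw
  rcases ha with ha | ha <;> rcases hb with hb | hb
  · have h1 := h.k2 ha (Or.inl hf)
    have h2 := h.k2 ha (Or.inl hc)
    have h3 := h.k2 hb (Or.inl hf)
    have h4 := h.k2 hb (Or.inl hc)
    omega
  · have h1 := h.k2 ha (Or.inl hf)
    have h2 := h.k2 ha (Or.inl hc)
    have h3 := h.k3 hf hb
    have h4 := h.k3 hc hb
    omega
  · have h1 := h.k3 hf ha
    have h2 := h.k3 hc ha
    have h3 := h.k2 hb (Or.inl hf)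
    have h4 := h.k2 hb (Or.inl hc)
    omega
  · have h1 := h.k3 hf ha
    have h2 := h.k3 hc ha
    have h3 := h.k3 hf hb
    have h4 := h.k3 hc hb
    omega

theorem crd_rot {p q : List V} (hs : IsEnum (p ++ q)) {a b c d : V} : CrD (q ++ p) a b c d ↔ CrD (p ++ q) a b c d := by
  unfold CrD
  refine and_congr_right fun n => ?_
  rw [cross_iff_sep (isEnum_rot hs) n.2.1 n.2.2.1 n.2.2.2.1 n.2.2.2.2.1, cross_iff_sep hs n.2.1 n.2.2.1 n.2.2.2.1 n.2.2.2.2.1,
    Pool.Agent.SOP.sep_rot hs n.2.1 n.2.2.1 n.2.2.2.1 n.2.2.2.2.1]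

end pos

/-! ### the base order -/

theorem ord0 (C : List Cell) : L0 C = (C.map Prod.fst).flatten := by
  have e : L0 C = ((List.range C.length).map fun i => (C.getD i ([], [])).1).flatten := by
    unfold L0 ordC
    rw [List.flatMap_def]
    rfl
  rw [e]
  congr 1
  refine List.ext_getElem (by simp) fun n h1 h2 => ?_
  simp only [List.length_map] at h2
  rw [List.getElem_map, List.getElem_map, List.getElem_range, List.getD_eq_getElem?_getD, List.getElem?_eq_getElem h2, Option.getD_some]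

theorem ord0_split {i : ℕ} (hi : i < C.length) : L0 C = ((C.take i).map Prod.fst).flatten ++
    (cst C i false ++ ((C.drop (i + 1)).map Prod.fst).flatten) := by
  have e1 : C = C.take i ++ (C[i] :: C.drop (i + 1)) := by
    rw [List.cons_getElem_drop_succ, List.take_append_drop]
  have e2 : cst C i false = C[i].1 := by
    unfold cst
    rw [List.getD_eq_getElem?_getD, List.getElem?_eq_getElem hi, Option.getD_some]
    rfl
  rw [ord0, e2]
  conv_lhs => rw [e1]
  rw [List.map_append, List.map_cons, List.flatten_append, List.flatten_cons]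

/-- the base order, from the cell `i` -/
theorem base (h : Star M C F) {i : ℕ} (hi : i ∈ F) {s1 s2 s3 : List ℕ} (e : rstC C i = s1 ++ (s2 ++ s3)) :
    ∃ s K S1 S2 S3 : List (Mem (L0 C)), Blk s K S1 S2 S3 ∧ K.map Subtype.val = cst C i false ∧ S1.map Subtype.val = s1 ∧
      S2.map Subtype.val = s2 ∧ S3.map Subtype.val = s3 ∧ ∀ a b c d, XC C (fun _ => false) a b c d ↔ CrD s a b c d := by
  obtain ⟨s, hs, hm, hx⟩ := ex_enum h.ok (fun _ => false)
  have hm' : s.map Subtype.val = ((C.take i).map Prod.fst).flatten ++ (cst C i false ++ ((C.drop (i + 1)).map Prod.fst).flatten) := by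
    rw [hm]
    exact ord0_split (h.lt i hi)
  obtain ⟨p, q, rfl, e1, e2⟩ := List.map_eq_append_iff.1 hm'
  have e3 : (q ++ p).map Subtype.val = cst C i false ++ (s1 ++ (s2 ++ s3)) := by
    rw [List.map_append, e1, e2, List.append_assoc, ← e]
    rfl
  obtain ⟨K, r, e4, k1, k2⟩ := List.map_eq_append_iff.1 e3
  obtain ⟨S1, r', rfl, k3, k4⟩ := List.map_eq_append_iff.1 k2
  obtain ⟨S2, S3, rfl, k5, k6⟩ := List.map_eq_append_iff.1 k4
  refine ⟨q ++ p, K, S1, S2, S3, ⟨e4, (isEnum_rot hs).1⟩, k1, k3, k5, k6, ?_⟩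
  intro a b c d
  rw [hx, crd_rot hs]

end Pool.Agent.SOI
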